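import Mathlib

/-!
Corner-sum matrices of alternating sign matrices and the count of compatible pairs.
-/

set_option autoImplicit false

namespace Pool.Agent.Lib.MP_315d97_co

open Finset

/-- counting functions whose values are free only on a finite set -/
lemma card_pi_support {ι α : Type*} (S : Finset ι) (A : ι → Finset α)
    (hA : ∀ i, i ∉ S → (A i).card = 1) :
    Nat.card {f : ι → α // ∀ i, f i ∈ A i} = ∏ i ∈ S, (A i).card := by
  classical
  have hc : ∀ i, i ∉ S → ∃ a, A i = {a} := fun i hi => Finset.card_eq_one.1 (hA i hi)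
  choose c hcA using hc
  let e : {f : ι → α // ∀ i, f i ∈ A i} ≃ (∀ i : S, (A i : Type _)) :=
    { toFun := fun f i => ⟨f.1 i, f.2 i⟩
      invFun := fun g => ⟨fun i => if h : i ∈ S then (g ⟨i, h⟩ : α) else c i h, by
        intro i
        by_cases h : i ∈ S
        · simp only [h, dif_pos]
          exact (g ⟨i, h⟩).2
        · simp only [h, dif_neg, not_false_iff]
          rw [hcA i h]; simp⟩
      left_inv := by
        intro f
        apply Subtype.ext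
        funext i
        by_cases h : i ∈ S
        · simp [h]
        · have := f.2 i
          rw [hcA i h] at this
          simp only [Finset.mem_singleton] at this
          simp [h, this]
      right_inv := by
        intro g
        funext i
        apply Subtype.ext
        simp }
  rw [Nat.card_congr e, Nat.card_pi]
  simp only [Nat.card_eq_fintype_card, Fintype.card_coe]
  exact Finset.prod_coe_sort S (fun i => (A i).card)

/-- corner-sum matrices, extended to all of `ℤ × ℤ` by `min i j` -/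
structure IsCS (m : ℕ) (X : ℤ × ℤ → ℤ) : Prop where
  rlo : ∀ i j, X (i, j) ≤ X (i+1, j)
  rhi : ∀ i j, X (i+1, j) ≤ X (i, j) + 1
  clo : ∀ i j, X (i, j) ≤ X (i, j+1)
  chi : ∀ i j, X (i, j+1) ≤ X (i, j) + 1
  out : ∀ i j, (i ≤ 0 ∨ j ≤ 0 ∨ (m:ℤ) ≤ i ∨ (m:ℤ) ≤ j) → X (i, j) = min i j

/-- compatibility of two corner-sum matrices -/
structure Compat (X Y : ℤ × ℤ → ℤ) : Prop where
  a1 : ∀ i j, Y (i, j) ≤ X (i, j)
  a2 : ∀ i j, X (i, j) ≤ Y (i, j) + 1
  b1 : ∀ i j, X (i, j) ≤ Y (i+1, j)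
  b2 : ∀ i j, Y (i+1, j) ≤ X (i, j) + 1
  c1 : ∀ i j, X (i, j) ≤ Y (i, j+1)
  c2 : ∀ i j, Y (i, j+1) ≤ X (i, j) + 1
  d1 : ∀ i j, X (i, j) ≤ Y (i+1, j+1)
  d2 : ∀ i j, Y (i+1, j+1) ≤ X (i, j) + 1

/-- admissible values of `Y` given `X` -/
noncomputable def AY (m : ℕ) (X : ℤ × ℤ → ℤ) (p : ℤ × ℤ) : Finset ℤ :=
  if 1 ≤ p.1 ∧ p.1 ≤ m ∧ 1 ≤ p.2 ∧ p.2 ≤ m then
    Finset.Icc (max (X (p.1 - 1, p.2)) (X (p.1, p.2 - 1)))
      (min (X (p.1 - 1, p.2 - 1) + 1) (X (p.1, p.2)))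
  else {min p.1 p.2}

/-- admissible values of `X` given `Y` -/
noncomputable def AX (m : ℕ) (Y : ℤ × ℤ → ℤ) (p : ℤ × ℤ) : Finset ℤ :=
  if 1 ≤ p.1 ∧ p.1 ≤ (m:ℤ) - 1 ∧ 1 ≤ p.2 ∧ p.2 ≤ (m:ℤ) - 1 then
    Finset.Icc (max (Y (p.1, p.2)) (Y (p.1 + 1, p.2 + 1) - 1))
      (min (Y (p.1 + 1, p.2)) (Y (p.1, p.2 + 1)))
  else {min p.1 p.2}

lemma mem_AY_iff {m : ℕ} {X : ℤ × ℤ → ℤ} (hX : IsCS m X) (Y : ℤ × ℤ → ℤ) :
    (IsCS (m+1) Y ∧ Compat X Y) ↔ ∀ p, Y p ∈ AY m X p := by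
  constructor
  · rintro ⟨hY, hC⟩ ⟨i, j⟩
    unfold AY
    split_ifs with h
    · simp only at h ⊢
      rw [Finset.mem_Icc, max_le_iff, le_min_iff]
      have h1 := hC.b1 (i-1) j
      have h2 := hC.c1 i (j-1)
      have h3 := hC.d2 (i-1) (j-1)
      have h4 := hC.a1 i j
      rw [sub_add_cancel] at h1 h2
      rw [sub_add_cancel, sub_add_cancel] at h3
      exact ⟨⟨h1, h2⟩, h3, h4⟩
    · simp only at h ⊢
      rw [Finset.mem_singleton]
      apply hY.out
      push_cast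
      omega
  · intro h
    have hin : ∀ i j : ℤ, 1 ≤ i → i ≤ m → 1 ≤ j → j ≤ m →
        X (i-1, j) ≤ Y (i, j) ∧ X (i, j-1) ≤ Y (i, j) ∧ Y (i, j) ≤ X (i-1, j-1) + 1 ∧
          Y (i, j) ≤ X (i, j) := by
      intro i j h1 h2 h3 h4
      have := h (i, j)
      unfold AY at this
      rw [if_pos ⟨h1, h2, h3, h4⟩] at this
      rw [Finset.mem_Icc, max_le_iff, le_min_iff] at this
      exact ⟨this.1.1, this.1.2, this.2.1, this.2.2⟩
    have hout : ∀ i j : ℤ, ¬ (1 ≤ i ∧ i ≤ m ∧ 1 ≤ j ∧ j ≤ m) → Y (i, j) = min i j := by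
      intro i j hh
      have := h (i, j)
      unfold AY at this
      rw [if_neg hh] at this
      simpa using this
    have hC : Compat X Y := by
      constructor
      · intro i j
        by_cases hh : 1 ≤ i ∧ i ≤ m ∧ 1 ≤ j ∧ j ≤ m
        · have := hin i j hh.1 hh.2.1 hh.2.2.1 hh.2.2.2
          omega
        · rw [hout i j hh, hX.out i j (by omega)]
      · intro i j
        by_cases hh : 1 ≤ i ∧ i ≤ m ∧ 1 ≤ j ∧ j ≤ m
        · have := hin i j hh.1 hh.2.1 hh.2.2.1 hh.2.2.2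
          have h2 := hX.rhi (i-1) j
          rw [sub_add_cancel] at h2
          omega
        · rw [hout i j hh, hX.out i j (by omega)]
          omega
      · intro i j
        by_cases hh : 1 ≤ i+1 ∧ i+1 ≤ m ∧ 1 ≤ j ∧ j ≤ m
        · have := hin (i+1) j hh.1 hh.2.1 hh.2.2.1 hh.2.2.2
          rw [add_sub_cancel_right] at this
          omega
        · rw [hout _ j hh, hX.out i j (by omega)]
          omega
      · intro i j
        by_cases hh : 1 ≤ i+1 ∧ i+1 ≤ m ∧ 1 ≤ j ∧ j ≤ m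
        · have := hin (i+1) j hh.1 hh.2.1 hh.2.2.1 hh.2.2.2
          rw [add_sub_cancel_right] at this
          have h2 := hX.clo i (j-1)
          rw [sub_add_cancel] at h2
          omega
        · rw [hout _ j hh, hX.out i j (by omega)]
          omega
      · intro i j
        by_cases hh : 1 ≤ i ∧ i ≤ m ∧ 1 ≤ j+1 ∧ j+1 ≤ m
        · have := hin i (j+1) hh.1 hh.2.1 hh.2.2.1 hh.2.2.2
          rw [add_sub_cancel_right] at this
          omega
        · rw [hout _ _ hh, hX.out i j (by omega)]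
          omega
      · intro i j
        by_cases hh : 1 ≤ i ∧ i ≤ m ∧ 1 ≤ j+1 ∧ j+1 ≤ m
        · have := hin i (j+1) hh.1 hh.2.1 hh.2.2.1 hh.2.2.2
          rw [add_sub_cancel_right] at this
          have h2 := hX.rlo (i-1) j
          rw [sub_add_cancel] at h2
          omega
        · rw [hout _ _ hh, hX.out i j (by omega)]
          omega
      · intro i j
        by_cases hh : 1 ≤ i+1 ∧ i+1 ≤ m ∧ 1 ≤ j+1 ∧ j+1 ≤ m
        · have := hin (i+1) (j+1) hh.1 hh.2.1 hh.2.2.1 hh.2.2.2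
          rw [add_sub_cancel_right, add_sub_cancel_right] at this
          have h2 := hX.clo i j
          omega
        · rw [hout _ _ hh, hX.out i j (by omega)]
          omega
      · intro i j
        by_cases hh : 1 ≤ i+1 ∧ i+1 ≤ m ∧ 1 ≤ j+1 ∧ j+1 ≤ m
        · have := hin (i+1) (j+1) hh.1 hh.2.1 hh.2.2.1 hh.2.2.2
          rw [add_sub_cancel_right, add_sub_cancel_right] at this
          omega
        · rw [hout _ _ hh, hX.out i j (by omega)]
          omega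
    refine ⟨?_, hC⟩
    constructor
    · intro i j
      exact (hC.a1 i j).trans (hC.b1 i j)
    · intro i j
      have h1 := hC.d2 i (j-1)
      have h2 := hC.c1 i (j-1)
      rw [sub_add_cancel] at h1 h2
      omega
    · intro i j
      exact (hC.a1 i j).trans (hC.c1 i j)
    · intro i j
      have h1 := hC.d2 (i-1) j
      have h2 := hC.b1 (i-1) j
      rw [sub_add_cancel] at h1 h2
      omega
    · intro i j hh
      apply hout
      push_cast at hh
      omega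

lemma mem_AX_iff {m : ℕ} {Y : ℤ × ℤ → ℤ} (hY : IsCS (m+1) Y) (X : ℤ × ℤ → ℤ) :
    (IsCS m X ∧ Compat X Y) ↔ ∀ p, X p ∈ AX m Y p := by
  constructor
  · rintro ⟨hX, hC⟩ ⟨i, j⟩
    unfold AX
    split_ifs with h
    · simp only at h ⊢
      rw [Finset.mem_Icc, max_le_iff, le_min_iff]
      have h1 := hC.a1 i j
      have h2 := hC.d2 i j
      have h3 := hC.b1 i j
      have h4 := hC.c1 i j
      refine ⟨⟨h1, by omega⟩, h3, h4⟩
    · simp only at h ⊢
      rw [Finset.mem_singleton]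
      apply hX.out
      omega
  · intro h
    have hin : ∀ i j : ℤ, 1 ≤ i → i ≤ (m:ℤ) - 1 → 1 ≤ j → j ≤ (m:ℤ) - 1 →
        Y (i, j) ≤ X (i, j) ∧ Y (i+1, j+1) - 1 ≤ X (i, j) ∧ X (i, j) ≤ Y (i+1, j) ∧
          X (i, j) ≤ Y (i, j+1) := by
      intro i j h1 h2 h3 h4
      have := h (i, j)
      unfold AX at this
      rw [if_pos ⟨h1, h2, h3, h4⟩] at this
      rw [Finset.mem_Icc, max_le_iff, le_min_iff] at this
      exact ⟨this.1.1, this.1.2, this.2.1, this.2.2⟩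
    have hout : ∀ i j : ℤ, ¬ (1 ≤ i ∧ i ≤ (m:ℤ) - 1 ∧ 1 ≤ j ∧ j ≤ (m:ℤ) - 1) →
        X (i, j) = min i j := by
      intro i j hh
      have := h (i, j)
      unfold AX at this
      rw [if_neg hh] at this
      simpa using this
    -- all eight inequalities at once
    have hall : ∀ i j : ℤ, Y (i, j) ≤ X (i, j) ∧ X (i, j) ≤ Y (i, j) + 1 ∧
        X (i, j) ≤ Y (i+1, j) ∧ Y (i+1, j) ≤ X (i, j) + 1 ∧
        X (i, j) ≤ Y (i, j+1) ∧ Y (i, j+1) ≤ X (i, j) + 1 ∧
        X (i, j) ≤ Y (i+1, j+1) ∧ Y (i+1, j+1) ≤ X (i, j) + 1 := by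
      intro i j
      have s1 := hY.rlo i j
      have s2 := hY.rhi i j
      have s3 := hY.clo i j
      have s4 := hY.chi i j
      have s5 := hY.rlo i (j+1)
      have s6 := hY.rhi i (j+1)
      have s7 := hY.clo (i+1) j
      have s8 := hY.chi (i+1) j
      by_cases hh : 1 ≤ i ∧ i ≤ (m:ℤ) - 1 ∧ 1 ≤ j ∧ j ≤ (m:ℤ) - 1
      · have := hin i j hh.1 hh.2.1 hh.2.2.1 hh.2.2.2
        omega
      · rw [hout i j hh]
        have o1 := hY.out i j
        have o2 := hY.out (i+1) j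
        have o3 := hY.out i (j+1)
        have o4 := hY.out (i+1) (j+1)
        push_cast at o1 o2 o3 o4
        omega
    have hC : Compat X Y :=
      ⟨fun i j => (hall i j).1, fun i j => (hall i j).2.1, fun i j => (hall i j).2.2.1,
        fun i j => (hall i j).2.2.2.1, fun i j => (hall i j).2.2.2.2.1,
        fun i j => (hall i j).2.2.2.2.2.1, fun i j => (hall i j).2.2.2.2.2.2.1,
        fun i j => (hall i j).2.2.2.2.2.2.2⟩
    refine ⟨?_, hC⟩
    constructor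
    · intro i j
      exact (hC.b1 i j).trans (hC.a1 (i+1) j)
    · intro i j
      have h1 := hC.c1 (i+1) j
      have h2 := hC.d2 i j
      omega
    · intro i j
      exact (hC.c1 i j).trans (hC.a1 i (j+1))
    · intro i j
      have h1 := hC.b1 i (j+1)
      have h2 := hC.d2 i j
      omega
    · intro i j hh
      apply hout
      omega

/-- the entry of the alternating sign matrix with corner sums `X` -/
def ent (X : ℤ × ℤ → ℤ) (p : ℤ × ℤ) : ℤ :=
  X (p.1, p.2) - X (p.1 - 1, p.2) - X (p.1, p.2 - 1) + X (p.1 - 1, p.2 - 1)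

/-- the index box -/
noncomputable def box (m : ℕ) : Finset (ℤ × ℤ) := Finset.Icc (1:ℤ) m ×ˢ Finset.Icc (1:ℤ) m

lemma mem_box {m : ℕ} {p : ℤ × ℤ} : p ∈ box m ↔ 1 ≤ p.1 ∧ p.1 ≤ m ∧ 1 ≤ p.2 ∧ p.2 ≤ m := by
  unfold box
  simp [Finset.mem_product, and_assoc]

/-- number of entries `1` -/
noncomputable def Np (m : ℕ) (X : ℤ × ℤ → ℤ) : ℕ := ((box m).filter (fun p => ent X p = 1)).card

/-- number of entries `-1` -/
noncomputable def Nm (m : ℕ) (X : ℤ × ℤ → ℤ) : ℕ := ((box m).filter (fun p => ent X p = -1)).card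

lemma ent_cases {m : ℕ} {X : ℤ × ℤ → ℤ} (hX : IsCS m X) (p : ℤ × ℤ) :
    ent X p = 1 ∨ ent X p = 0 ∨ ent X p = -1 := by
  obtain ⟨i, j⟩ := p
  unfold ent
  simp only
  have h1 := hX.rlo (i-1) j
  have h2 := hX.rhi (i-1) j
  have h3 := hX.rlo (i-1) (j-1)
  have h4 := hX.rhi (i-1) (j-1)
  rw [sub_add_cancel] at h1 h2 h3 h4
  omega

lemma prod_two_one (S : Finset (ℤ × ℤ)) (f : ℤ × ℤ → ℕ) (P : ℤ × ℤ → Prop) [DecidablePred P]
    (h : ∀ p ∈ S, f p = if P p then 2 else 1) :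
    ∏ p ∈ S, f p = 2 ^ (S.filter P).card := by
  rw [Finset.prod_congr rfl h, Finset.prod_ite]
  simp

lemma card_AY {m : ℕ} {X : ℤ × ℤ → ℤ} (hX : IsCS m X) {p : ℤ × ℤ} (hp : p ∈ box m) :
    (AY m X p).card = if ent X p = 1 then 2 else 1 := by
  obtain ⟨i, j⟩ := p
  have hp' := mem_box.1 hp
  unfold AY
  rw [if_pos hp']
  simp only [Int.card_Icc]
  unfold ent
  simp only
  have h1 := hX.rlo (i-1) j
  have h2 := hX.rhi (i-1) j
  have h3 := hX.rlo (i-1) (j-1)
  have h4 := hX.rhi (i-1) (j-1)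
  have h5 := hX.clo (i-1) (j-1)
  have h6 := hX.chi (i-1) (j-1)
  have h7 := hX.clo i (j-1)
  have h8 := hX.chi i (j-1)
  simp only [sub_add_cancel] at h1 h2 h3 h4 h5 h6 h7 h8
  split_ifs with h
  · omega
  · omega

lemma natcard_Y {m : ℕ} {X : ℤ × ℤ → ℤ} (hX : IsCS m X) :
    Nat.card {Y : ℤ × ℤ → ℤ // IsCS (m+1) Y ∧ Compat X Y} = 2 ^ Np m X := by
  have e : Nat.card {Y : ℤ × ℤ → ℤ // IsCS (m+1) Y ∧ Compat X Y} =
      Nat.card {Y : ℤ × ℤ → ℤ // ∀ p, Y p ∈ AY m X p} :=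
    Nat.card_congr (Equiv.subtypeEquivRight (fun Y => mem_AY_iff hX Y))
  rw [e, card_pi_support (box m) (AY m X)]
  · exact prod_two_one _ _ _ (fun p hp => card_AY hX hp)
  · intro p hp
    rw [mem_box] at hp
    unfold AY
    rw [if_neg hp]
    simp

lemma card_AX {m : ℕ} {Y : ℤ × ℤ → ℤ} (hY : IsCS (m+1) Y) {p : ℤ × ℤ}
    (hp : 1 ≤ p.1 ∧ p.1 ≤ (m:ℤ) - 1 ∧ 1 ≤ p.2 ∧ p.2 ≤ (m:ℤ) - 1) :
    (AX m Y p).card = if ent Y (p.1 + 1, p.2 + 1) = -1 then 2 else 1 := by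
  obtain ⟨i, j⟩ := p
  unfold AX
  rw [if_pos hp]
  simp only [Int.card_Icc]
  unfold ent
  simp only [add_sub_cancel_right]
  have h1 := hY.rlo i j
  have h2 := hY.rhi i j
  have h3 := hY.rlo i (j+1)
  have h4 := hY.rhi i (j+1)
  have h5 := hY.clo i j
  have h6 := hY.chi i j
  have h7 := hY.clo (i+1) j
  have h8 := hY.chi (i+1) j
  split_ifs with h
  · omega
  · omega

lemma natcard_X {m : ℕ} {Y : ℤ × ℤ → ℤ} (hY : IsCS (m+1) Y) :
    Nat.card {X : ℤ × ℤ → ℤ // IsCS m X ∧ Compat X Y} = 2 ^ Nm (m+1) Y := by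
  have e : Nat.card {X : ℤ × ℤ → ℤ // IsCS m X ∧ Compat X Y} =
      Nat.card {X : ℤ × ℤ → ℤ // ∀ p, X p ∈ AX m Y p} :=
    Nat.card_congr (Equiv.subtypeEquivRight (fun X => mem_AX_iff hY X))
  let S : Finset (ℤ × ℤ) := Finset.Icc (1:ℤ) ((m:ℤ)-1) ×ˢ Finset.Icc (1:ℤ) ((m:ℤ)-1)
  have hS : ∀ p, p ∈ S ↔ (1 ≤ p.1 ∧ p.1 ≤ (m:ℤ) - 1 ∧ 1 ≤ p.2 ∧ p.2 ≤ (m:ℤ) - 1) := by
    intro p
    simp [S, Finset.mem_product, and_assoc]
  rw [e, card_pi_support S (AX m Y)]
  · rw [prod_two_one S _ (fun p => ent Y (p.1 + 1, p.2 + 1) = -1)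
      (fun p hp => card_AX hY ((hS p).1 hp))]
    congr 1
    unfold Nm
    apply Finset.card_nbij' (fun p => (p.1 + 1, p.2 + 1)) (fun p => (p.1 - 1, p.2 - 1))
    · intro p hp
      simp only [Finset.coe_filter, Set.mem_ofPred_eq] at hp ⊢
      rw [hS] at hp
      rw [mem_box]
      push_cast
      refine ⟨by omega, hp.2⟩
    · intro p hp
      obtain ⟨i, j⟩ := p
      simp only [Finset.coe_filter, Set.mem_ofPred_eq] at hp ⊢
      rw [hS]
      rw [mem_box] at hp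
      simp only [sub_add_cancel]
      refine ⟨?_, hp.2⟩
      obtain ⟨hb, he⟩ := hp
      unfold ent at he
      push_cast at hb
      simp only at hb he ⊢
      have o1 := hY.out i j
      have o2 := hY.out (i-1) j
      have o3 := hY.out i (j-1)
      have o4 := hY.out (i-1) (j-1)
      have h1 := hY.rlo (i-1) j
      have h2 := hY.rhi (i-1) j
      have h3 := hY.rlo (i-1) (j-1)
      have h4 := hY.rhi (i-1) (j-1)
      have h5 := hY.clo (i-1) (j-1)
      have h6 := hY.chi (i-1) (j-1)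
      have h7 := hY.clo i (j-1)
      have h8 := hY.chi i (j-1)
      simp only [sub_add_cancel] at h1 h2 h3 h4 h5 h6 h7 h8
      push_cast at o1 o2 o3 o4
      omega
    · intro p hp
      simp
    · intro p hp
      simp
  · intro p hp
    rw [hS] at hp
    unfold AX
    rw [if_neg hp]
    simp

lemma sum_Icc_telescope (f : ℤ → ℤ) (n : ℕ) :
    ∑ i ∈ Finset.Icc (1:ℤ) n, (f i - f (i-1)) = f n - f 0 := by
  induction n with
  | zero => simp
  | succ n ih =>
    have : Finset.Icc (1:ℤ) ((n+1 : ℕ):ℤ) = insert ((n:ℤ)+1) (Finset.Icc (1:ℤ) n) := by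
      ext x
      simp only [Finset.mem_Icc, Finset.mem_insert]
      push_cast
      omega
    rw [this, Finset.sum_insert (by simp), ih]
    push_cast
    rw [add_sub_cancel_right]
    ring

lemma sum_ent {m : ℕ} {X : ℤ × ℤ → ℤ} (hX : IsCS m X) : ∑ p ∈ box m, ent X p = m := by
  unfold box
  rw [Finset.sum_product]
  have : ∀ i ∈ Finset.Icc (1:ℤ) m, ∑ j ∈ Finset.Icc (1:ℤ) m, ent X (i, j) = 1 := by
    intro i hi
    rw [Finset.mem_Icc] at hi
    have h := sum_Icc_telescope (fun j => X (i, j) - X (i-1, j)) m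
    have h' : ∑ j ∈ Finset.Icc (1:ℤ) m, ent X (i, j) =
        ∑ j ∈ Finset.Icc (1:ℤ) m,
          ((fun j => X (i, j) - X (i-1, j)) j - (fun j => X (i, j) - X (i-1, j)) (j-1)) := by
      apply Finset.sum_congr rfl
      intro j _
      unfold ent
      simp only
      ring
    rw [h', h]
    rw [hX.out i m (by omega), hX.out (i-1) m (by omega), hX.out i 0 (by omega),
      hX.out (i-1) 0 (by omega)]
    omega
  rw [Finset.sum_congr rfl this]
  simp

lemma Np_eq {m : ℕ} {X : ℤ × ℤ → ℤ} (hX : IsCS m X) : Np m X = Nm m X + m := by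
  have h := sum_ent hX
  have h2 : ∑ p ∈ box m, ent X p =
      ∑ p ∈ box m, ((if ent X p = 1 then (1:ℤ) else 0) - (if ent X p = -1 then (1:ℤ) else 0)) := by
    apply Finset.sum_congr rfl
    intro p _
    rcases ent_cases hX p with h | h | h <;> simp [h]
  rw [h2, Finset.sum_sub_distrib, Finset.sum_boole, Finset.sum_boole] at h
  unfold Np Nm
  omega

lemma CS_bound {m : ℕ} {X : ℤ × ℤ → ℤ} (hX : IsCS m X) (i j : ℤ) (hi : 0 ≤ i) (hi' : i ≤ m)
    (hj : 0 ≤ j) : 0 ≤ X (i, j) ∧ X (i, j) ≤ i := by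
  obtain ⟨n, rfl⟩ := Int.eq_ofNat_of_zero_le hi
  clear hi hi'
  induction n with
  | zero =>
    rw [hX.out _ j (by simp)]
    omega
  | succ n ih =>
    have h1 := hX.rlo n j
    have h2 := hX.rhi n j
    push_cast
    omega

instance finite_CS (m : ℕ) : Finite {X : ℤ × ℤ → ℤ // IsCS m X} := by
  let A : ℤ × ℤ → Finset ℤ := fun p => if p ∈ box m then Finset.Icc 0 (m:ℤ) else {min p.1 p.2}
  have hfin : Finite {X : ℤ × ℤ → ℤ // ∀ p, X p ∈ A p} := by
    apply Nat.finite_of_card_ne_zero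
    rw [card_pi_support (box m) A]
    · rw [Finset.prod_ne_zero_iff]
      intro p hp
      simp only [A, if_pos hp]
      rw [Int.card_Icc]
      omega
    · intro p hp
      simp only [A, if_neg hp]
      simp
  have hinj : ∀ X : ℤ × ℤ → ℤ, IsCS m X → ∀ p, X p ∈ A p := by
    intro X hX p
    by_cases hp : p ∈ box m
    · simp only [A, if_pos hp]
      rw [mem_box] at hp
      obtain ⟨i, j⟩ := p
      have := CS_bound hX i j (by simp only at hp; omega) hp.2.1 (by simp only at hp; omega)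
      rw [Finset.mem_Icc]
      simp only at hp
      omega
    · simp only [A, if_neg hp]
      rw [Finset.mem_singleton]
      rw [mem_box] at hp
      obtain ⟨i, j⟩ := p
      apply hX.out
      simp only at hp
      omega
  exact Finite.of_injective (fun X : {X : ℤ × ℤ → ℤ // IsCS m X} =>
    (⟨X.1, hinj X.1 X.2⟩ : {X : ℤ × ℤ → ℤ // ∀ p, X p ∈ A p}))
    (by intro a b h; simpa [Subtype.ext_iff] using h)

/-- compatible pairs: the height functions of domino tilings of the Aztec diamond of order `m` -/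
structure IsPair (m : ℕ) (p : (ℤ × ℤ → ℤ) × (ℤ × ℤ → ℤ)) : Prop where
  cx : IsCS m p.1
  cy : IsCS (m+1) p.2
  co : Compat p.1 p.2

/-- number of compatible pairs -/
noncomputable def FF (m : ℕ) : ℕ := Nat.card {p : (ℤ × ℤ → ℤ) × (ℤ × ℤ → ℤ) // IsPair m p}

instance finite_Pair (m : ℕ) :
    Finite {p : (ℤ × ℤ → ℤ) × (ℤ × ℤ → ℤ) // IsPair m p} := by
  exact Finite.of_injective (fun p : {p : (ℤ × ℤ → ℤ) × (ℤ × ℤ → ℤ) // IsPair m p} =>
    ((⟨p.1.1, p.2.cx⟩, ⟨p.1.2, p.2.cy⟩) :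
      {X : ℤ × ℤ → ℤ // IsCS m X} × {X : ℤ × ℤ → ℤ // IsCS (m+1) X}))
    (by
      intro a b h
      simp only [Prod.mk.injEq, Subtype.mk.injEq] at h
      exact Subtype.ext (Prod.ext h.1 h.2))

lemma FF_eq_sum_X (m : ℕ) [Fintype {X : ℤ × ℤ → ℤ // IsCS m X}] :
    FF m = ∑ X : {X : ℤ × ℤ → ℤ // IsCS m X}, 2 ^ Np m X.1 := by
  unfold FF
  let e : {p : (ℤ × ℤ → ℤ) × (ℤ × ℤ → ℤ) // IsPair m p} ≃
      (Σ X : {X : ℤ × ℤ → ℤ // IsCS m X}, {Y : ℤ × ℤ → ℤ // IsCS (m+1) Y ∧ Compat X.1 Y}) :=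
    { toFun := fun p => ⟨⟨p.1.1, p.2.cx⟩, ⟨p.1.2, p.2.cy, p.2.co⟩⟩
      invFun := fun q => ⟨(q.1.1, q.2.1), ⟨q.1.2, q.2.2.1, q.2.2.2⟩⟩
      left_inv := fun p => rfl
      right_inv := fun q => rfl }
  have hf : ∀ X : {X : ℤ × ℤ → ℤ // IsCS m X},
      Finite {Y : ℤ × ℤ → ℤ // IsCS (m+1) Y ∧ Compat X.1 Y} := by
    intro X
    apply Nat.finite_of_card_ne_zero
    rw [natcard_Y X.2]
    positivity
  rw [Nat.card_congr e, Nat.card_sigma]
  exact Finset.sum_congr rfl (fun X _ => natcard_Y X.2)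

lemma FF_eq_sum_Y (m : ℕ) [Fintype {X : ℤ × ℤ → ℤ // IsCS (m+1) X}] :
    FF m = ∑ Y : {X : ℤ × ℤ → ℤ // IsCS (m+1) X}, 2 ^ Nm (m+1) Y.1 := by
  unfold FF
  let e : {p : (ℤ × ℤ → ℤ) × (ℤ × ℤ → ℤ) // IsPair m p} ≃
      (Σ Y : {X : ℤ × ℤ → ℤ // IsCS (m+1) X}, {X : ℤ × ℤ → ℤ // IsCS m X ∧ Compat X Y.1}) :=
    { toFun := fun p => ⟨⟨p.1.2, p.2.cy⟩, ⟨p.1.1, p.2.cx, p.2.co⟩⟩
      invFun := fun q => ⟨(q.2.1, q.1.1), ⟨q.2.2.1, q.1.2, q.2.2.2⟩⟩
      left_inv := fun p => rfl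
      right_inv := fun q => rfl }
  have hf : ∀ Y : {X : ℤ × ℤ → ℤ // IsCS (m+1) X},
      Finite {X : ℤ × ℤ → ℤ // IsCS m X ∧ Compat X Y.1} := by
    intro X
    apply Nat.finite_of_card_ne_zero
    rw [natcard_X X.2]
    positivity
  rw [Nat.card_congr e, Nat.card_sigma]
  exact Finset.sum_congr rfl (fun X _ => natcard_X X.2)

lemma FF_succ (m : ℕ) : FF (m+1) = 2 ^ (m+1) * FF m := by
  classical
  have := finite_CS (m+1)
  have := Fintype.ofFinite {X : ℤ × ℤ → ℤ // IsCS (m+1) X}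
  rw [FF_eq_sum_X (m+1), FF_eq_sum_Y m, Finset.mul_sum]
  apply Finset.sum_congr rfl
  intro X _
  rw [Np_eq X.2, pow_add, mul_comm]

lemma FF_zero : FF 0 = 1 := by
  classical
  have := Fintype.ofFinite {X : ℤ × ℤ → ℤ // IsCS 0 X}
  rw [FF_eq_sum_X 0]
  have hN : ∀ X : ℤ × ℤ → ℤ, Np 0 X = 0 := by
    intro X
    unfold Np box
    simp
  simp only [hN, pow_zero]
  rw [Finset.sum_const, smul_eq_mul, mul_one, Finset.card_univ]
  rw [Fintype.card_eq_one_iff]
  refine ⟨⟨fun p => min p.1 p.2, ?_⟩, ?_⟩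
  · constructor <;> intros <;> omega
  · rintro ⟨X, hX⟩
    apply Subtype.ext
    funext p
    obtain ⟨i, j⟩ := p
    apply hX.out
    push_cast
    omega

/-- the Aztec diamond theorem, in terms of height functions -/
theorem FF_eq (m : ℕ) : FF m = 2 ^ (m * (m+1) / 2) := by
  induction m with
  | zero => simpa using FF_zero
  | succ m ih =>
    rw [FF_succ, ih, ← pow_add]
    congr 1
    have : (m+1) * (m+1+1) = m * (m+1) + 2 * (m+1) := by ring
    rw [this, Nat.add_mul_div_left _ _ (by norm_num)]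
    ring

end Pool.Agent.Lib.MP_315d97_co
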