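import Mathlib
import Pool.Agent.Lib.MP_315d97_co.Count

/-!
Half height functions (height functions of one half of the Aztec diamond with free cut line),
and the decomposition of a full height function in two halves.
-/

set_option autoImplicit false

namespace Pool.Agent.Lib.MP_315d97_co

open Finset

/-- half height functions -/
structure IsHalf (m : ℕ) (V : ℕ → ℤ → ℤ) : Prop where
  supp : ∀ (u : ℕ) (y : ℤ), ((m:ℤ) ≤ u + y ∨ (m:ℤ) ≤ u - y) → V u y = 0
  ve : ∀ (u : ℕ) (y : ℤ), ((u:ℤ) + y + m) % 2 = 0 → V u y ≤ V u (y+1) ∧ V u (y+1) ≤ V u y + 1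
  vo : ∀ (u : ℕ) (y : ℤ), ((u:ℤ) + y + m) % 2 = 1 → V u (y+1) ≤ V u y ∧ V u y ≤ V u (y+1) + 1
  hz : ∀ (u : ℕ) (y : ℤ), V (u+1) y ≤ V u y ∧ V u y ≤ V (u+1) y + 1

lemma Compat.stepX {X Y : ℤ × ℤ → ℤ} (hC : Compat X Y) :
    (∀ i j, X (i, j) ≤ X (i+1, j)) ∧ (∀ i j, X (i+1, j) ≤ X (i, j) + 1) ∧
    (∀ i j, X (i, j) ≤ X (i, j+1)) ∧ (∀ i j, X (i, j+1) ≤ X (i, j) + 1) := by
  refine ⟨?_, ?_, ?_, ?_⟩
  · intro i j
    exact (hC.b1 i j).trans (hC.a1 (i+1) j)
  · intro i j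
    have h1 := hC.c1 (i+1) j
    have h2 := hC.d2 i j
    omega
  · intro i j
    exact (hC.c1 i j).trans (hC.a1 i (j+1))
  · intro i j
    have h1 := hC.b1 i (j+1)
    have h2 := hC.d2 i j
    omega

lemma Compat.stepY {X Y : ℤ × ℤ → ℤ} (hC : Compat X Y) :
    (∀ i j, Y (i, j) ≤ Y (i+1, j)) ∧ (∀ i j, Y (i+1, j) ≤ Y (i, j) + 1) ∧
    (∀ i j, Y (i, j) ≤ Y (i, j+1)) ∧ (∀ i j, Y (i, j+1) ≤ Y (i, j) + 1) := by
  refine ⟨?_, ?_, ?_, ?_⟩
  · intro i j
    exact (hC.a1 i j).trans (hC.b1 i j)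
  · intro i j
    have h1 := hC.d2 i (j-1)
    have h2 := hC.c1 i (j-1)
    rw [sub_add_cancel] at h1 h2
    omega
  · intro i j
    exact (hC.a1 i j).trans (hC.c1 i j)
  · intro i j
    have h1 := hC.d2 (i-1) j
    have h2 := hC.b1 (i-1) j
    rw [sub_add_cancel] at h1 h2
    omega

/-- glue two halves: the `X` part -/
noncomputable def glueX (m : ℕ) (V1 V2 : ℕ → ℤ → ℤ) (p : ℤ × ℤ) : ℤ :=
  min p.1 p.2 - (if p.1 ≤ p.2 then V1 (p.2 - p.1).toNat (p.1 + p.2 - m)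
    else V2 (p.1 - p.2).toNat (p.1 + p.2 - m))

/-- glue two halves: the `Y` part -/
noncomputable def glueY (m : ℕ) (V1 V2 : ℕ → ℤ → ℤ) (p : ℤ × ℤ) : ℤ :=
  min p.1 p.2 - (if p.1 ≤ p.2 then V1 (p.2 - p.1).toNat (p.1 + p.2 - m - 1)
    else V2 (p.1 - p.2).toNat (p.1 + p.2 - m - 1))

lemma glueX_up (m : ℕ) (V1 V2 : ℕ → ℤ → ℤ) (a : ℤ) (u : ℕ) :
    glueX m V1 V2 (a, a + u) = a - V1 u (2 * a + u - m) := by
  unfold glueX
  simp only
  rw [if_pos (by omega)]
  have h1 : (a + (u:ℤ) - a).toNat = u := by omega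
  have h2 : min a (a + (u:ℤ)) = a := by omega
  rw [h1, h2]
  congr 2
  ring

lemma glueY_up (m : ℕ) (V1 V2 : ℕ → ℤ → ℤ) (a : ℤ) (u : ℕ) :
    glueY m V1 V2 (a, a + u) = a - V1 u (2 * a + u - m - 1) := by
  unfold glueY
  simp only
  rw [if_pos (by omega)]
  have h1 : (a + (u:ℤ) - a).toNat = u := by omega
  have h2 : min a (a + (u:ℤ)) = a := by omega
  rw [h1, h2]
  congr 2
  ring

lemma glueX_dn (m : ℕ) (V1 V2 : ℕ → ℤ → ℤ) (h : V1 0 = V2 0) (a : ℤ) (u : ℕ) :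
    glueX m V1 V2 (a + u, a) = a - V2 u (2 * a + u - m) := by
  rcases Nat.eq_zero_or_pos u with rfl | hu
  · have := glueX_up m V1 V2 a 0
    simp only [Nat.cast_zero, add_zero] at this ⊢
    rw [this, h]
  · unfold glueX
    simp only
    rw [if_neg (by omega)]
    have h1 : (a + (u:ℤ) - a).toNat = u := by omega
    have h2 : min (a + (u:ℤ)) a = a := by omega
    rw [h1, h2]
    congr 2
    ring

lemma glueY_dn (m : ℕ) (V1 V2 : ℕ → ℤ → ℤ) (h : V1 0 = V2 0) (a : ℤ) (u : ℕ) :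
    glueY m V1 V2 (a + u, a) = a - V2 u (2 * a + u - m - 1) := by
  rcases Nat.eq_zero_or_pos u with rfl | hu
  · have := glueY_up m V1 V2 a 0
    simp only [Nat.cast_zero, add_zero] at this ⊢
    rw [this, h]
  · unfold glueY
    simp only
    rw [if_neg (by omega)]
    have h1 : (a + (u:ℤ) - a).toNat = u := by omega
    have h2 : min (a + (u:ℤ)) a = a := by omega
    rw [h1, h2]
    congr 2
    ring

lemma updn (i j : ℤ) : (∃ (u : ℕ), j = i + u) ∨ (∃ (u : ℕ), i = j + 1 + u) := by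
  rcases le_or_gt i j with h | h
  · left; exact ⟨(j - i).toNat, by omega⟩
  · right; exact ⟨(i - j - 1).toNat, by omega⟩

lemma glue_compat {m : ℕ} {V1 V2 : ℕ → ℤ → ℤ} (h1 : IsHalf m V1) (h2 : IsHalf m V2)
    (h : V1 0 = V2 0) : Compat (glueX m V1 V2) (glueY m V1 V2) := by
  -- statements for the four edge types
  have A : ∀ i j, glueY m V1 V2 (i, j) ≤ glueX m V1 V2 (i, j) ∧
      glueX m V1 V2 (i, j) ≤ glueY m V1 V2 (i, j) + 1 := by
    intro i j
    rcases updn i j with ⟨u, rfl⟩ | ⟨u, rfl⟩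
    · rw [glueX_up, glueY_up]
      have := h1.vo u (2 * i + u - m - 1) (by omega)
      rw [sub_add_cancel] at this
      omega
    · have e : j + 1 + (u:ℤ) = j + ((u+1 : ℕ):ℤ) := by push_cast; ring
      rw [e, glueX_dn _ _ _ h, glueY_dn _ _ _ h]
      have := h2.vo (u+1) (2 * j + (u+1:ℕ) - m - 1) (by push_cast; omega)
      rw [sub_add_cancel] at this
      omega
  have D : ∀ i j, glueX m V1 V2 (i, j) ≤ glueY m V1 V2 (i+1, j+1) ∧
      glueY m V1 V2 (i+1, j+1) ≤ glueX m V1 V2 (i, j) + 1 := by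
    intro i j
    rcases updn i j with ⟨u, rfl⟩ | ⟨u, rfl⟩
    · have e : i + (u:ℤ) + 1 = (i + 1) + (u:ℤ) := by ring
      rw [e, glueX_up, glueY_up]
      have := h1.ve u (2 * i + u - m) (by omega)
      have e2 : 2 * (i + 1) + (u:ℤ) - m - 1 = 2 * i + u - m + 1 := by ring
      rw [e2]
      omega
    · have e : j + 1 + (u:ℤ) = j + ((u+1 : ℕ):ℤ) := by push_cast; ring
      have e' : j + 1 + (u:ℤ) + 1 = (j + 1) + ((u+1 : ℕ):ℤ) := by push_cast; ring
      rw [e', e, glueX_dn _ _ _ h, glueY_dn _ _ _ h]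
      have := h2.ve (u+1) (2 * j + (u+1:ℕ) - m) (by push_cast; omega)
      have e2 : 2 * (j + 1) + ((u+1:ℕ):ℤ) - m - 1 = 2 * j + ((u+1:ℕ):ℤ) - m + 1 := by ring
      rw [e2]
      omega
  have B : ∀ i j, glueX m V1 V2 (i, j) ≤ glueY m V1 V2 (i+1, j) ∧
      glueY m V1 V2 (i+1, j) ≤ glueX m V1 V2 (i, j) + 1 := by
    intro i j
    rcases updn j i with ⟨u, rfl⟩ | ⟨u, rfl⟩
    · -- i = j + u
      have e : j + (u:ℤ) + 1 = j + ((u+1:ℕ):ℤ) := by push_cast; ring
      rw [e, glueX_dn _ _ _ h, glueY_dn _ _ _ h]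
      have := h2.hz u (2 * j + u - m)
      have e2 : 2 * j + ((u+1:ℕ):ℤ) - m - 1 = 2 * j + u - m := by push_cast; ring
      rw [e2]
      omega
    · -- j = i + 1 + u
      have e : i + 1 + (u:ℤ) = i + ((u+1:ℕ):ℤ) := by push_cast; ring
      rw [glueY_up, e, glueX_up]
      have := h1.hz u (2 * (i+1) + u - m - 1)
      have e2 : 2 * i + ((u+1:ℕ):ℤ) - m = 2 * (i+1) + u - m - 1 := by push_cast; ring
      rw [e2]
      omega
  have C : ∀ i j, glueX m V1 V2 (i, j) ≤ glueY m V1 V2 (i, j+1) ∧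
      glueY m V1 V2 (i, j+1) ≤ glueX m V1 V2 (i, j) + 1 := by
    intro i j
    rcases updn i j with ⟨u, rfl⟩ | ⟨u, rfl⟩
    · have e : i + (u:ℤ) + 1 = i + ((u+1:ℕ):ℤ) := by push_cast; ring
      rw [e, glueX_up, glueY_up]
      have := h1.hz u (2 * i + u - m)
      have e2 : 2 * i + ((u+1:ℕ):ℤ) - m - 1 = 2 * i + u - m := by push_cast; ring
      rw [e2]
      omega
    · have e : j + 1 + (u:ℤ) = j + ((u+1:ℕ):ℤ) := by push_cast; ring
      rw [glueY_dn _ _ _ h, e, glueX_dn _ _ _ h]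
      have := h2.hz u (2 * (j+1) + u - m - 1)
      have e2 : 2 * j + ((u+1:ℕ):ℤ) - m = 2 * (j+1) + u - m - 1 := by push_cast; ring
      rw [e2]
      omega
  exact ⟨fun i j => (A i j).1, fun i j => (A i j).2, fun i j => (B i j).1, fun i j => (B i j).2,
    fun i j => (C i j).1, fun i j => (C i j).2, fun i j => (D i j).1, fun i j => (D i j).2⟩

lemma glue_pair {m : ℕ} {V1 V2 : ℕ → ℤ → ℤ} (h1 : IsHalf m V1) (h2 : IsHalf m V2)
    (h : V1 0 = V2 0) : IsPair m (glueX m V1 V2, glueY m V1 V2) := by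
  have hC := glue_compat h1 h2 h
  refine ⟨⟨hC.stepX.1, hC.stepX.2.1, hC.stepX.2.2.1, hC.stepX.2.2.2, ?_⟩,
    ⟨hC.stepY.1, hC.stepY.2.1, hC.stepY.2.2.1, hC.stepY.2.2.2, ?_⟩, hC⟩
  · intro i j hh
    dsimp only
    rcases updn i j with ⟨u, rfl⟩ | ⟨u, rfl⟩
    · rw [glueX_up, h1.supp _ _ (by omega)]
      omega
    · have e : j + 1 + (u:ℤ) = j + ((u+1 : ℕ):ℤ) := by push_cast; ring
      rw [e, glueX_dn _ _ _ h, h2.supp _ _ (by push_cast; omega)]
      push_cast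
      omega
  · intro i j hh
    push_cast at hh
    dsimp only
    rcases updn i j with ⟨u, rfl⟩ | ⟨u, rfl⟩
    · rw [glueY_up, h1.supp _ _ (by omega)]
      omega
    · have e : j + 1 + (u:ℤ) = j + ((u+1 : ℕ):ℤ) := by push_cast; ring
      rw [e, glueY_dn _ _ _ h, h2.supp _ _ (by push_cast; omega)]
      push_cast
      omega

/-- cut a full height function: the half `i ≤ j` -/
noncomputable def cut (m : ℕ) (X Y : ℤ × ℤ → ℤ) (u : ℕ) (y : ℤ) : ℤ :=
  if ((u:ℤ) + y + m) % 2 = 0 then (y + m - u) / 2 - X ((y + m - u) / 2, (y + m - u) / 2 + u)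
  else (y + m + 1 - u) / 2 - Y ((y + m + 1 - u) / 2, (y + m + 1 - u) / 2 + u)

lemma cut_e (m : ℕ) (X Y : ℤ × ℤ → ℤ) (u : ℕ) (a : ℤ) :
    cut m X Y u (2 * a + u - m) = a - X (a, a + u) := by
  unfold cut
  rw [if_pos (by omega)]
  have : (2 * a + (u:ℤ) - m + m - u) / 2 = a := by omega
  rw [this]

lemma cut_o (m : ℕ) (X Y : ℤ × ℤ → ℤ) (u : ℕ) (a : ℤ) :
    cut m X Y u (2 * a + u - m - 1) = a - Y (a, a + u) := by
  unfold cut
  rw [if_neg (by omega)]
  have : (2 * a + (u:ℤ) - m - 1 + m + 1 - u) / 2 = a := by omega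
  rw [this]

lemma two_types (m : ℕ) (u : ℕ) (y : ℤ) :
    (∃ a : ℤ, y = 2 * a + u - m) ∨ (∃ a : ℤ, y = 2 * a + u - m - 1) := by
  rcases Int.emod_two_eq_zero_or_one (y + m - u) with h | h
  · left; exact ⟨(y + m - u) / 2, by omega⟩
  · right; exact ⟨(y + m + 1 - u) / 2, by omega⟩

lemma cut_half {m : ℕ} {X Y : ℤ × ℤ → ℤ} (h : IsPair m (X, Y)) : IsHalf m (cut m X Y) := by
  have hX := h.cx
  have hY := h.cy
  have hC := h.co
  simp only at hX hY hC
  constructor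
  · intro u y hh
    rcases two_types m u y with ⟨a, rfl⟩ | ⟨a, rfl⟩
    · rw [cut_e, hX.out _ _ (by omega)]
      omega
    · rw [cut_o, hY.out _ _ (by push_cast; omega)]
      omega
  · intro u y hp
    rcases two_types m u y with ⟨a, rfl⟩ | ⟨a, rfl⟩
    · have e : 2 * a + (u:ℤ) - m + 1 = 2 * (a + 1) + u - m - 1 := by ring
      rw [e, cut_e, cut_o]
      have h1 := hC.d1 a (a + u)
      have h2 := hC.d2 a (a + u)
      have e2 : a + 1 + (u:ℤ) = a + u + 1 := by ring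
      rw [e2]
      omega
    · omega
  · intro u y hp
    rcases two_types m u y with ⟨a, rfl⟩ | ⟨a, rfl⟩
    · omega
    · have e : 2 * a + (u:ℤ) - m - 1 + 1 = 2 * a + u - m := by ring
      rw [e, cut_e, cut_o]
      have h1 := hC.a1 a (a + u)
      have h2 := hC.a2 a (a + u)
      omega
  · intro u y
    rcases two_types m u y with ⟨a, rfl⟩ | ⟨a, rfl⟩
    · have e : 2 * a + (u:ℤ) - m = 2 * a + ((u + 1 : ℕ):ℤ) - m - 1 := by push_cast; ring
      rw [cut_e]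
      rw [e, cut_o]
      have h1 := hC.c1 a (a + u)
      have h2 := hC.c2 a (a + u)
      have e2 : a + ((u+1:ℕ):ℤ) = a + u + 1 := by push_cast; ring
      rw [e2]
      omega
    · have e : 2 * a + (u:ℤ) - m - 1 = 2 * (a - 1) + ((u + 1 : ℕ):ℤ) - m := by push_cast; ring
      rw [cut_o]
      rw [e, cut_e]
      have h1 := hC.b1 (a-1) (a + u)
      have h2 := hC.b2 (a-1) (a + u)
      rw [sub_add_cancel] at h1 h2
      have e2 : a - 1 + ((u+1:ℕ):ℤ) = a + u := by push_cast; ring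
      rw [e2]
      omega

/-- transpose -/
def tr (X : ℤ × ℤ → ℤ) (p : ℤ × ℤ) : ℤ := X (p.2, p.1)

lemma IsPair.tr {m : ℕ} {X Y : ℤ × ℤ → ℤ} (h : IsPair m (X, Y)) : IsPair m (tr X, tr Y) := by
  have hX := h.cx
  have hY := h.cy
  have hC := h.co
  simp only at hX hY hC
  refine ⟨⟨?_, ?_, ?_, ?_, ?_⟩, ⟨?_, ?_, ?_, ?_, ?_⟩, ⟨?_, ?_, ?_, ?_, ?_, ?_, ?_, ?_⟩⟩
  · intro i j; exact hX.clo j i
  · intro i j; exact hX.chi j i
  · intro i j; exact hX.rlo j i
  · intro i j; exact hX.rhi j i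
  · intro i j hh
    have := hX.out j i (by omega)
    rw [min_comm]; exact this
  · intro i j; exact hY.clo j i
  · intro i j; exact hY.chi j i
  · intro i j; exact hY.rlo j i
  · intro i j; exact hY.rhi j i
  · intro i j hh
    have := hY.out j i (by omega)
    rw [min_comm]; exact this
  · intro i j; exact hC.a1 j i
  · intro i j; exact hC.a2 j i
  · intro i j; exact hC.c1 j i
  · intro i j; exact hC.c2 j i
  · intro i j; exact hC.b1 j i
  · intro i j; exact hC.b2 j i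
  · intro i j; exact hC.d1 j i
  · intro i j; exact hC.d2 j i

/-- pairs of halves agreeing on the axis -/
def IsHH (m : ℕ) (p : (ℕ → ℤ → ℤ) × (ℕ → ℤ → ℤ)) : Prop :=
  IsHalf m p.1 ∧ IsHalf m p.2 ∧ p.1 0 = p.2 0

lemma cut_axis (m : ℕ) (X Y : ℤ × ℤ → ℤ) : cut m X Y 0 = cut m (tr X) (tr Y) 0 := by
  funext y
  rcases two_types m 0 y with ⟨a, rfl⟩ | ⟨a, rfl⟩
  · rw [cut_e, cut_e]
    simp [tr]
  · rw [cut_o, cut_o]
    simp [tr]

/-- the gluing bijection -/
noncomputable def glueEquiv (m : ℕ) :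
    {p : (ℕ → ℤ → ℤ) × (ℕ → ℤ → ℤ) // IsHH m p} ≃
      {p : (ℤ × ℤ → ℤ) × (ℤ × ℤ → ℤ) // IsPair m p} where
  toFun p := ⟨(glueX m p.1.1 p.1.2, glueY m p.1.1 p.1.2), glue_pair p.2.1 p.2.2.1 p.2.2.2⟩
  invFun q := ⟨(cut m q.1.1 q.1.2, cut m (tr q.1.1) (tr q.1.2)),
    ⟨cut_half q.2, cut_half q.2.tr, cut_axis m _ _⟩⟩
  left_inv := by
    rintro ⟨⟨V1, V2⟩, h1, h2, h⟩
    apply Subtype.ext
    simp only at h1 h2 h ⊢
    apply Prod.ext
    · funext u y
      dsimp only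
      rcases two_types m u y with ⟨a, rfl⟩ | ⟨a, rfl⟩
      · rw [cut_e, glueX_up]; ring
      · rw [cut_o, glueY_up]; ring
    · funext u y
      dsimp only
      rcases two_types m u y with ⟨a, rfl⟩ | ⟨a, rfl⟩
      · rw [cut_e]
        unfold tr
        simp only
        rw [glueX_dn _ _ _ h]; ring
      · rw [cut_o]
        unfold tr
        simp only
        rw [glueY_dn _ _ _ h]; ring
  right_inv := by
    rintro ⟨⟨X, Y⟩, h⟩
    apply Subtype.ext
    simp only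
    have hax := cut_axis m X Y
    apply Prod.ext
    · funext ⟨i, j⟩
      simp only
      rcases updn i j with ⟨u, rfl⟩ | ⟨u, rfl⟩
      · rw [glueX_up, cut_e]; ring
      · have e : j + 1 + (u:ℤ) = j + ((u+1 : ℕ):ℤ) := by push_cast; ring
        rw [e, glueX_dn _ _ _ hax, cut_e]
        simp [tr]
    · funext ⟨i, j⟩
      simp only
      rcases updn i j with ⟨u, rfl⟩ | ⟨u, rfl⟩
      · rw [glueY_up, cut_o]; ring
      · have e : j + 1 + (u:ℤ) = j + ((u+1 : ℕ):ℤ) := by push_cast; ring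
        rw [e, glueY_dn _ _ _ hax, cut_o]
        simp [tr]

lemma FF_eq_HH (m : ℕ) :
    FF m = Nat.card {p : (ℕ → ℤ → ℤ) × (ℕ → ℤ → ℤ) // IsHH m p} := by
  unfold FF
  exact (Nat.card_congr (glueEquiv m)).symm

lemma finite_HH (m : ℕ) : Finite {p : (ℕ → ℤ → ℤ) × (ℕ → ℤ → ℤ) // IsHH m p} := by
  have := finite_Pair m
  exact Finite.of_equiv _ (glueEquiv m).symm

lemma finite_half_sub (m : ℕ) : Finite {V : ℕ → ℤ → ℤ // IsHalf m V} := by
  have := finite_HH m
  exact Finite.of_injective (fun V : {V : ℕ → ℤ → ℤ // IsHalf m V} =>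
      (⟨(V.1, V.1), V.2, V.2, rfl⟩ : {p : (ℕ → ℤ → ℤ) × (ℕ → ℤ → ℤ) // IsHH m p}))
      (by
        intro a b h
        exact Subtype.ext (congrArg (fun z => z.1.1) h))

lemma finite_half (m : ℕ) : {V : ℕ → ℤ → ℤ | IsHalf m V}.Finite := by
  have := finite_half_sub m
  rw [← Set.finite_coe_iff]
  exact Finite.of_injective (fun V : {V : ℕ → ℤ → ℤ | IsHalf m V} =>
      (⟨V.1, by have h := V.2; rwa [Set.mem_ofPred_eq] at h⟩ : {V : ℕ → ℤ → ℤ // IsHalf m V}))
      (by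
        intro a b h
        exact Subtype.ext (congrArg (fun z => z.1) h))

/-- the finite set of half height functions -/
noncomputable def HF (m : ℕ) : Finset (ℕ → ℤ → ℤ) := (finite_half m).toFinset

lemma mem_HF {m : ℕ} {V : ℕ → ℤ → ℤ} : V ∈ HF m ↔ IsHalf m V := by
  unfold HF
  simp

open Classical in
/-- number of half height functions with prescribed values on the axis -/
noncomputable def LL (m : ℕ) (s : ℤ → ℤ) : ℕ := ((HF m).filter (fun V => V 0 = s)).card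

open Classical in
/-- the axis states -/
noncomputable def AXS (m : ℕ) : Finset (ℤ → ℤ) := (HF m).image (fun V => V 0)

open Classical in
lemma FF_eq_filter (m : ℕ) :
    FF m = ((HF m ×ˢ HF m).filter (fun p => p.1 0 = p.2 0)).card := by
  rw [FF_eq_HH]
  rw [Nat.subtype_card]
  intro p
  rw [Finset.mem_filter, Finset.mem_product, mem_HF, mem_HF]
  unfold IsHH
  tauto

open Classical in
lemma FF_eq_sum_LL (m : ℕ) : FF m = ∑ s ∈ AXS m, LL m s ^ 2 := by
  rw [FF_eq_filter]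
  have h1 : ((HF m ×ˢ HF m).filter (fun p => p.1 0 = p.2 0)).card =
      ∑ V ∈ HF m, LL m (V 0) := by
    rw [Finset.card_filter, Finset.sum_product]
    apply Finset.sum_congr rfl
    intro V _
    unfold LL
    rw [Finset.card_filter]
    apply Finset.sum_congr rfl
    intro W _
    simp only [eq_comm]
  rw [h1]
  have h2 := Finset.sum_comp (s := HF m) (fun s => LL m s) (fun V => V 0)
  rw [h2]
  unfold AXS
  apply Finset.sum_congr rfl
  intro s _
  rw [smul_eq_mul, sq]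
  rfl

open Classical in
lemma HF_card_eq (m : ℕ) : (HF m).card = ∑ s ∈ AXS m, LL m s := by
  unfold AXS LL
  exact Finset.card_eq_sum_card_image _ _

lemma axis_eq_zero {m : ℕ} {V : ℕ → ℤ → ℤ} (h : IsHalf m V) {y : ℤ} (hy : y ≤ -(m:ℤ)) :
    V 0 y = 0 := h.supp 0 y (by push_cast; omega)

/-- rows crossed on the axis -/
noncomputable def rows (m : ℕ) (s : ℤ → ℤ) : Finset ℤ :=
  (Finset.Ico (-(m:ℤ)) m).filter (fun b => s (b+1) ≠ s b)

lemma rows_inj {m : ℕ} {V W : ℕ → ℤ → ℤ} (hV : IsHalf m V) (hW : IsHalf m W)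
    (h : rows m (V 0) = rows m (W 0)) : V 0 = W 0 := by
  have key : ∀ n : ℕ, V 0 (-(m:ℤ) + n) = W 0 (-(m:ℤ) + n) := by
    intro n
    induction n with
    | zero => rw [axis_eq_zero hV (by simp), axis_eq_zero hW (by simp)]
    | succ n ih =>
      by_cases hn : (n:ℤ) < 2 * m
      · have hb := congrArg (fun S => (-(m:ℤ) + n) ∈ S) h
        simp only [rows, Finset.mem_filter, Finset.mem_Ico] at hb
        have e : -(m:ℤ) + ((n+1:ℕ):ℤ) = -(m:ℤ) + n + 1 := by push_cast; ring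
        rw [e]
        have hmem : (-(m:ℤ) ≤ -(m:ℤ) + n ∧ -(m:ℤ) + n < m) := by omega
        simp only [hmem, true_and, eq_iff_iff, and_self] at hb
        rcases Int.emod_two_eq_zero_or_one ((0:ℕ) + (-(m:ℤ) + n) + m) with hp | hp
        · have h1 := hV.ve 0 _ hp
          have h2 := hW.ve 0 _ hp
          omega
        · have h1 := hV.vo 0 _ hp
          have h2 := hW.vo 0 _ hp
          omega
      · rw [hV.supp 0 _ (by push_cast; omega), hW.supp 0 _ (by push_cast; omega)]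
  funext y
  by_cases hy : y ≤ -(m:ℤ)
  · rw [axis_eq_zero hV hy, axis_eq_zero hW hy]
  · have := key (y + m).toNat
    have e : -(m:ℤ) + ((y+m).toNat : ℤ) = y := by omega
    rwa [e] at this

open Classical in
lemma AXS_card (m : ℕ) : (AXS m).card ≤ 2 ^ (2 * m) := by
  have h1 : (AXS m).card ≤ (Finset.Ico (-(m:ℤ)) m).powerset.card := by
    apply Finset.card_le_card_of_injOn (rows m)
    · intro s _
      simp only [Finset.coe_powerset, Set.mem_preimage, Set.mem_powerset_iff]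
      intro b hb
      simp only [rows, Finset.coe_filter, Set.mem_ofPred_eq] at hb
      exact hb.1
    · intro s hs t ht hst
      simp only [AXS, Finset.coe_image, Set.mem_image, Finset.mem_coe, mem_HF] at hs ht
      obtain ⟨V, hV, rfl⟩ := hs
      obtain ⟨W, hW, rfl⟩ := ht
      exact rows_inj hV hW hst
  rw [Finset.card_powerset, Int.card_Ico] at h1
  have e : ((m:ℤ) - -(m:ℤ)).toNat = 2 * m := by omega
  rwa [e] at h1

/-- upper bound for the number of symmetric tilings -/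
lemma HF_card_sq_le (m : ℕ) : (HF m).card ^ 2 ≤ 2 ^ (2 * m) * FF m := by
  rw [HF_card_eq, FF_eq_sum_LL]
  calc (∑ s ∈ AXS m, LL m s) ^ 2 ≤ (AXS m).card * ∑ s ∈ AXS m, LL m s ^ 2 :=
        sq_sum_le_card_mul_sum_sq
    _ ≤ 2 ^ (2 * m) * ∑ s ∈ AXS m, LL m s ^ 2 := Nat.mul_le_mul_right _ (AXS_card m)

/-- pigeonhole: some axis state carries a large number of half height functions -/
lemma exists_large (m : ℕ) : ∃ s ∈ AXS m, FF m ≤ 2 ^ (2 * m) * LL m s ^ 2 := by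
  by_contra hcon
  push Not at hcon
  have hne : (AXS m).Nonempty := by
    rw [Finset.nonempty_iff_ne_empty]
    intro he
    have h1 := FF_eq_sum_LL m
    rw [he, Finset.sum_empty, FF_eq] at h1
    have : 0 < 2 ^ (m * (m+1) / 2) := by positivity
    omega
  have h2 : ∑ s ∈ AXS m, 2 ^ (2 * m) * LL m s ^ 2 < ∑ s ∈ AXS m, FF m :=
    Finset.sum_lt_sum_of_nonempty hne hcon
  rw [← Finset.mul_sum, ← FF_eq_sum_LL, Finset.sum_const, smul_eq_mul] at h2
  have h3 : (AXS m).card * FF m ≤ 2 ^ (2 * m) * FF m := Nat.mul_le_mul_right _ (AXS_card m)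
  omega

end Pool.Agent.Lib.MP_315d97_co
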