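import Mathlib
import Pool.Agent.Lib.MP_315d97_co.Half

/-!
Rounding lemma: changing the axis state of a half height function by at most one changes the
number of half height functions by at most a subexponential factor.
-/

set_option autoImplicit false

namespace Pool.Agent.Lib.MP_315d97_co

open Finset

/-- axis functions -/
structure IsAxis (m : ℕ) (H : ℤ → ℤ) : Prop where
  supp : ∀ y : ℤ, ((m:ℤ) ≤ y ∨ (m:ℤ) ≤ -y) → H y = 0
  ve : ∀ y : ℤ, (y + m) % 2 = 0 → H y ≤ H (y+1) ∧ H (y+1) ≤ H y + 1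
  vo : ∀ y : ℤ, (y + m) % 2 = 1 → H (y+1) ≤ H y ∧ H y ≤ H (y+1) + 1

lemma IsHalf.axis {m : ℕ} {V : ℕ → ℤ → ℤ} (h : IsHalf m V) : IsAxis m (V 0) := by
  constructor
  · intro y hy
    exact h.supp 0 y (by push_cast; omega)
  · intro y hy
    exact h.ve 0 y (by push_cast; omega)
  · intro y hy
    exact h.vo 0 y (by push_cast; omega)

lemma IsAxis.step {m : ℕ} {H : ℤ → ℤ} (h : IsAxis m H) (y : ℤ) :
    H y ≤ H (y+1) + 1 ∧ H (y+1) ≤ H y + 1 := by
  rcases Int.emod_two_eq_zero_or_one (y + m) with hp | hp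
  · have := h.ve y hp
    omega
  · have := h.vo y hp
    omega

lemma IsAxis.bound_up {m : ℕ} {H : ℤ → ℤ} (h : IsAxis m H) (n : ℕ) :
    2 * H (m - n) ≤ n + (n:ℤ) % 2 := by
  induction n with
  | zero => rw [h.supp _ (by push_cast; omega)]; simp
  | succ n ih =>
    have e : (m:ℤ) - ((n+1 : ℕ):ℤ) + 1 = m - n := by push_cast; ring
    rcases Int.emod_two_eq_zero_or_one ((m:ℤ) - ((n+1 : ℕ):ℤ) + m) with hp | hp
    · have := h.ve _ hp
      rw [e] at this
      push_cast at hp this ⊢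
      omega
    · have := h.vo _ hp
      rw [e] at this
      push_cast at hp this ⊢
      omega

lemma IsAxis.bound_dn {m : ℕ} {H : ℤ → ℤ} (h : IsAxis m H) (n : ℕ) :
    2 * H (-m + n) ≤ n + (n:ℤ) % 2 := by
  induction n with
  | zero => rw [h.supp _ (by push_cast; omega)]; simp
  | succ n ih =>
    have e : -(m:ℤ) + ((n+1 : ℕ):ℤ) = -(m:ℤ) + n + 1 := by push_cast; ring
    rcases Int.emod_two_eq_zero_or_one (-(m:ℤ) + n + m) with hp | hp
    · have := h.ve _ hp
      rw [← e] at this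
      push_cast at hp this ⊢
      omega
    · have := h.vo _ hp
      rw [← e] at this
      push_cast at hp this ⊢
      omega

lemma IsAxis.le_half {m : ℕ} {H : ℤ → ℤ} (h : IsAxis m H) (u : ℕ) (k : ℤ)
    (hk : (m:ℤ) - 2 * u ≤ k ∨ k ≤ 2 * u - m) : H k ≤ u := by
  by_cases h1 : (m:ℤ) ≤ k
  · rw [h.supp _ (Or.inl h1)]; positivity
  by_cases h2 : (m:ℤ) ≤ -k
  · rw [h.supp _ (Or.inr h2)]; positivity
  rcases hk with hk | hk
  · have := h.bound_up (m - k).toNat
    have e : (m:ℤ) - ((m - k).toNat : ℤ) = k := by omega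
    rw [e] at this
    omega
  · have := h.bound_dn (k + m).toNat
    have e : -(m:ℤ) + ((k + m).toNat : ℤ) = k := by omega
    rw [e] at this
    omega

/-- maximum over the cone -/
noncomputable def MM (H : ℤ → ℤ) (u : ℕ) (y : ℤ) : ℤ :=
  (Finset.Icc (y - u) (y + u)).sup' ⟨y, by rw [Finset.mem_Icc]; omega⟩ H

lemma le_MM (H : ℤ → ℤ) (u : ℕ) (y k : ℤ) (h1 : y - u ≤ k) (h2 : k ≤ y + u) :
    H k ≤ MM H u y := Finset.le_sup' H (Finset.mem_Icc.2 ⟨h1, h2⟩)

lemma MM_le (H : ℤ → ℤ) (u : ℕ) (y c : ℤ) (h : ∀ k, y - u ≤ k → k ≤ y + u → H k ≤ c) :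
    MM H u y ≤ c := by
  apply Finset.sup'_le
  intro k hk
  rw [Finset.mem_Icc] at hk
  exact h k hk.1 hk.2

lemma exists_MM (H : ℤ → ℤ) (u : ℕ) (y : ℤ) : ∃ k, y - u ≤ k ∧ k ≤ y + u ∧ MM H u y = H k := by
  obtain ⟨k, hk, he⟩ := Finset.exists_mem_eq_sup' (s := Finset.Icc (y - (u:ℤ)) (y + u))
    ⟨y, by rw [Finset.mem_Icc]; omega⟩ H
  rw [Finset.mem_Icc] at hk
  exact ⟨k, hk.1, hk.2, he⟩

/-- raise a half height function to the axis state `H` -/
noncomputable def raise (H : ℤ → ℤ) (V : ℕ → ℤ → ℤ) (u : ℕ) (y : ℤ) : ℤ :=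
  max (V u y) (MM H u y - u)

lemma MM_ve {m : ℕ} {H : ℤ → ℤ} (h : IsAxis m H) (u : ℕ) (y : ℤ) (hp : ((u:ℤ) + y + m) % 2 = 0) :
    MM H u y ≤ MM H u (y+1) ∧ MM H u (y+1) ≤ MM H u y + 1 := by
  constructor
  · apply MM_le
    intro k h1 h2
    by_cases hk : k = y - u
    · have := h.ve k (by omega)
      exact this.1.trans (le_MM H u (y+1) (k+1) (by omega) (by omega))
    · exact le_MM H u (y+1) k (by omega) (by omega)
  · apply MM_le
    intro k h1 h2
    by_cases hk : k = y + 1 + u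
    · have := (h.step (k-1)).2
      rw [sub_add_cancel] at this
      have h3 := le_MM H u y (k-1) (by omega) (by omega)
      omega
    · have h3 := le_MM H u y k (by omega) (by omega)
      omega

lemma MM_vo {m : ℕ} {H : ℤ → ℤ} (h : IsAxis m H) (u : ℕ) (y : ℤ) (hp : ((u:ℤ) + y + m) % 2 = 1) :
    MM H u (y+1) ≤ MM H u y ∧ MM H u y ≤ MM H u (y+1) + 1 := by
  constructor
  · apply MM_le
    intro k h1 h2
    by_cases hk : k = y + 1 + u
    · have := h.vo (k-1) (by omega)
      rw [sub_add_cancel] at this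
      exact this.1.trans (le_MM H u y (k-1) (by omega) (by omega))
    · exact le_MM H u y k (by omega) (by omega)
  · apply MM_le
    intro k h1 h2
    by_cases hk : k = y - u
    · have := (h.step k).1
      have h3 := le_MM H u (y+1) (k+1) (by omega) (by omega)
      omega
    · have h3 := le_MM H u (y+1) k (by omega) (by omega)
      omega

lemma MM_hz {m : ℕ} {H : ℤ → ℤ} (h : IsAxis m H) (u : ℕ) (y : ℤ) :
    MM H u y ≤ MM H (u+1) y ∧ MM H (u+1) y ≤ MM H u y + 1 := by
  constructor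
  · apply MM_le
    intro k h1 h2
    exact le_MM H (u+1) y k (by push_cast; omega) (by push_cast; omega)
  · apply MM_le
    intro k h1 h2
    push_cast at h1 h2
    by_cases hk : k = y - (u + 1)
    · have := (h.step k).1
      have h3 := le_MM H u y (k+1) (by omega) (by omega)
      omega
    · by_cases hk' : k = y + (u + 1)
      · have := (h.step (k-1)).2
        rw [sub_add_cancel] at this
        have h3 := le_MM H u y (k-1) (by omega) (by omega)
        omega
      · have h3 := le_MM H u y k (by omega) (by omega)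
        omega

lemma raise_half {m : ℕ} {H : ℤ → ℤ} (h : IsAxis m H) {V : ℕ → ℤ → ℤ} (hV : IsHalf m V) :
    IsHalf m (raise H V) := by
  constructor
  · intro u y hh
    unfold raise
    rw [hV.supp u y hh]
    apply max_eq_left
    have : MM H u y ≤ u := by
      apply MM_le
      intro k h1 h2
      apply h.le_half
      omega
    omega
  · intro u y hp
    have h1 := MM_ve h u y hp
    have h2 := hV.ve u y hp
    unfold raise
    omega
  · intro u y hp
    have h1 := MM_vo h u y hp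
    have h2 := hV.vo u y hp
    unfold raise
    omega
  · intro u y
    have h1 := MM_hz h u y
    have h2 := hV.hz u y
    unfold raise
    push_cast
    omega

lemma MM_zero (H : ℤ → ℤ) (y : ℤ) : MM H 0 y = H y := by
  apply le_antisymm
  · apply MM_le
    intro k h1 h2
    push_cast at h1 h2
    have : k = y := by omega
    rw [this]
  · exact le_MM H 0 y y (by push_cast; omega) (by push_cast; omega)

lemma raise_axis {H : ℤ → ℤ} {V : ℕ → ℤ → ℤ} (hle : ∀ y, V 0 y ≤ H y) :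
    raise H V 0 = H := by
  funext y
  unfold raise
  rw [MM_zero]
  have := hle y
  push_cast
  omega

/-! ### monotonicity of `V u y + u` along cones -/

lemma K_out {m : ℕ} {V : ℕ → ℤ → ℤ} (hV : IsHalf m V) (u : ℕ) (y : ℤ) :
    V u y + u ≤ V (u+1) y + (u+1 : ℕ) := by
  have := (hV.hz u y).2
  push_cast
  omega

lemma K_up {m : ℕ} {V : ℕ → ℤ → ℤ} (hV : IsHalf m V) (u : ℕ) (y : ℤ) :
    V u y + u ≤ V (u+1) (y+1) + (u+1 : ℕ) := by
  rcases Int.emod_two_eq_zero_or_one ((u:ℤ) + y + m) with hp | hp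
  · have h1 := (hV.ve u y hp).1
    have h2 := (hV.hz u (y+1)).2
    push_cast
    omega
  · have h1 := (hV.ve (u+1) y (by push_cast; omega)).1
    have h2 := (hV.hz u y).2
    push_cast
    omega

lemma K_dn {m : ℕ} {V : ℕ → ℤ → ℤ} (hV : IsHalf m V) (u : ℕ) (y : ℤ) :
    V u y + u ≤ V (u+1) (y-1) + (u+1 : ℕ) := by
  rcases Int.emod_two_eq_zero_or_one ((u:ℤ) + (y-1) + m) with hp | hp
  · have h1 := (hV.vo (u+1) (y-1) (by push_cast; omega)).1
    have h2 := (hV.hz u y).2
    rw [sub_add_cancel] at h1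
    push_cast
    omega
  · have h1 := (hV.vo u (y-1) hp).1
    have h2 := (hV.hz u (y-1)).2
    rw [sub_add_cancel] at h1
    push_cast
    omega

lemma K_out_n {m : ℕ} {V : ℕ → ℤ → ℤ} (hV : IsHalf m V) (u : ℕ) (y : ℤ) (n : ℕ) :
    V u y + u ≤ V (u+n) y + (u+n : ℕ) := by
  induction n with
  | zero => simp
  | succ n ih => exact ih.trans (K_out hV (u+n) y)

lemma K_up_n {m : ℕ} {V : ℕ → ℤ → ℤ} (hV : IsHalf m V) (u : ℕ) (y : ℤ) (n : ℕ) :
    V u y + u ≤ V (u+n) (y+n) + (u+n : ℕ) := by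
  induction n with
  | zero => simp
  | succ n ih =>
    have := K_up hV (u+n) (y+n)
    have e : y + ((n+1:ℕ):ℤ) = y + n + 1 := by push_cast; ring
    rw [e]
    exact ih.trans this

lemma K_dn_n {m : ℕ} {V : ℕ → ℤ → ℤ} (hV : IsHalf m V) (u : ℕ) (y : ℤ) (n : ℕ) :
    V u y + u ≤ V (u+n) (y-n) + (u+n : ℕ) := by
  induction n with
  | zero => simp
  | succ n ih =>
    have := K_dn hV (u+n) (y-n)
    have e : y - ((n+1:ℕ):ℤ) = y - n - 1 := by push_cast; ring
    rw [e]
    exact ih.trans this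

lemma cone {m : ℕ} {V : ℕ → ℤ → ℤ} (hV : IsHalf m V) (u : ℕ) (y k : ℤ)
    (h1 : y - u ≤ k) (h2 : k ≤ y + u) : V 0 k ≤ V u y + u := by
  rcases le_total k y with h | h
  · obtain ⟨n, hn⟩ := Int.eq_ofNat_of_zero_le (sub_nonneg.2 h)
    have a := K_up_n hV 0 k n
    have e : k + (n:ℤ) = y := by omega
    rw [e] at a
    have b := K_out_n hV (0+n) y (u - n)
    have e2 : 0 + n + (u - n) = u := by omega
    rw [e2] at b
    push_cast at a b
    omega
  · obtain ⟨n, hn⟩ := Int.eq_ofNat_of_zero_le (sub_nonneg.2 h)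
    have a := K_dn_n hV 0 k n
    have e : k - (n:ℤ) = y := by omega
    rw [e] at a
    have b := K_out_n hV (0+n) y (u - n)
    have e2 : 0 + n + (u - n) = u := by omega
    rw [e2] at b
    push_cast at a b
    omega

/-! ### the information lost by raising -/

/-- the places where raising changes the function -/
def Lost (H' : ℤ → ℤ) (V : ℕ → ℤ → ℤ) (u : ℕ) (y : ℤ) : Prop :=
  ∃ k, y - u ≤ k ∧ k ≤ y + u ∧ V u y + u < H' k

lemma raise_lost {m : ℕ} {H' : ℤ → ℤ} {V : ℕ → ℤ → ℤ} (hV : IsHalf m V)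
    (hle : ∀ y, H' y ≤ V 0 y + 1) (u : ℕ) (y : ℤ) (h : Lost H' V u y) :
    raise H' V u y = V u y + 1 := by
  obtain ⟨k, h1, h2, h3⟩ := h
  have a := le_MM H' u y k h1 h2
  obtain ⟨k', h4, h5, h6⟩ := exists_MM H' u y
  have b := cone hV u y k' h4 h5
  have c := hle k'
  unfold raise
  omega

lemma raise_not_lost {H' : ℤ → ℤ} {V : ℕ → ℤ → ℤ} (u : ℕ) (y : ℤ)
    (h : ¬ Lost H' V u y) : raise H' V u y = V u y := by
  obtain ⟨k', h4, h5, h6⟩ := exists_MM H' u y
  unfold raise
  have : ¬ (V u y + u < H' k') := fun hh => h ⟨k', h4, h5, hh⟩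
  omega

lemma eq_of_raise_eq {m : ℕ} {H' : ℤ → ℤ} {V W : ℕ → ℤ → ℤ} (hV : IsHalf m V) (hW : IsHalf m W)
    (hleV : ∀ y, H' y ≤ V 0 y + 1) (hleW : ∀ y, H' y ≤ W 0 y + 1)
    (u : ℕ) (y : ℤ) (hr : raise H' V u y = raise H' W u y)
    (hL : Lost H' V u y ↔ Lost H' W u y) : V u y = W u y := by
  by_cases h : Lost H' V u y
  · have a := raise_lost hV hleV u y h
    have b := raise_lost hW hleW u y (hL.1 h)
    omega
  · have a := raise_not_lost (H' := H') u y h
    have b := raise_not_lost (H' := H') u y (fun hh => h (hL.2 hh))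
    omega

end Pool.Agent.Lib.MP_315d97_co
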