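import Mathlib
import Pool.Agent.Lib.MP_315d97_co.Round

/-!
Encoding the information lost by raising, and the comparison of axis states.
-/

set_option autoImplicit false

namespace Pool.Agent.Lib.MP_315d97_co

open Finset

lemma separate (p q S : ℕ) (hpq : p < q) (hq : q < 2 ^ S) :
    ∃ s, s < S ∧ q / 2 ^ s = p / 2 ^ s + 1 := by
  classical
  have hex : ∃ n, p / 2 ^ n = q / 2 ^ n :=
    ⟨S, by rw [Nat.div_eq_of_lt hq, Nat.div_eq_of_lt (hpq.trans hq)]⟩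
  have hn := Nat.find_spec hex
  have hle : Nat.find hex ≤ S :=
    Nat.find_min' hex (by rw [Nat.div_eq_of_lt hq, Nat.div_eq_of_lt (hpq.trans hq)])
  rcases Nat.eq_zero_or_pos (Nat.find hex) with h0 | h0
  · rw [h0] at hn
    simp at hn
    omega
  · obtain ⟨s, hs⟩ := Nat.exists_eq_succ_of_ne_zero h0.ne'
    refine ⟨s, by omega, ?_⟩
    have hne : p / 2 ^ s ≠ q / 2 ^ s := Nat.find_min hex (by omega)
    have hle2 : p / 2 ^ s ≤ q / 2 ^ s := Nat.div_le_div_right hpq.le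
    rw [hs, Nat.succ_eq_add_one, pow_succ, ← Nat.div_div_eq_div_mul, ← Nat.div_div_eq_div_mul] at hn
    omega

lemma chain_eq (r : ℕ → ℕ → Prop) (tot : ∀ a b, r a b ∨ r b a) (B P Q : ℕ → Prop)
    [DecidablePred P] [DecidablePred Q]
    (hP : ∀ q q', r q q' → B q → P q' → P q) (hPB : ∀ q, P q → B q)
    (hQ : ∀ q q', r q q' → B q → Q q' → Q q) (hQB : ∀ q, Q q → B q) (N : ℕ)
    (hc : ((Finset.range N).filter P).card = ((Finset.range N).filter Q).card) :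
    ∀ q, q < N → (P q ↔ Q q) := by
  have hcomp : (Finset.range N).filter P ⊆ (Finset.range N).filter Q ∨
      (Finset.range N).filter Q ⊆ (Finset.range N).filter P := by
    by_contra hcon
    push Not at hcon
    obtain ⟨h1, h2⟩ := hcon
    rw [Finset.not_subset] at h1 h2
    obtain ⟨a, ha, ha'⟩ := h1
    obtain ⟨b, hb, hb'⟩ := h2
    rw [Finset.mem_filter] at ha hb ha' hb'
    rcases tot a b with hr | hr
    · exact ha' ⟨ha.1, hQ a b hr (hPB a ha.2) hb.2⟩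
    · exact hb' ⟨hb.1, hP b a hr (hQB b hb.2) ha.2⟩
  have heq : (Finset.range N).filter P = (Finset.range N).filter Q := by
    rcases hcomp with h | h
    · exact Finset.eq_of_subset_of_card_le h hc.ge
    · exact (Finset.eq_of_subset_of_card_le h hc.le).symm
  intro q hq
  have := congrArg (fun S => q ∈ S) heq
  simp only [Finset.mem_filter, Finset.mem_range, eq_iff_iff] at this
  constructor
  · intro h
    exact (this.1 ⟨hq, h⟩).2
  · intro h
    exact (this.2 ⟨hq, h⟩).2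

/-- lost information, seen from the left end of the cone -/
def P1 (m : ℕ) (H' : ℤ → ℤ) (V : ℕ → ℤ → ℤ) (p s q : ℕ) : Prop :=
  ((p / 2 ^ s + 1) * 2 ^ s ≤ q ∧ (q - p) % 2 = 0) ∧
  ∃ k : ℤ, (p:ℤ) - m ≤ k ∧ k ≤ (((p / 2 ^ s + 1) * 2 ^ s : ℕ) : ℤ) - m ∧
    V ((q - p) / 2) (((p + q : ℕ) : ℤ) / 2 - m) + (((q - p) / 2 : ℕ) : ℤ) < H' k

/-- lost information, seen from the right end of the cone -/
def P2 (m : ℕ) (H' : ℤ → ℤ) (V : ℕ → ℤ → ℤ) (q s p : ℕ) : Prop :=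
  (p ≤ (q / 2 ^ s) * 2 ^ s ∧ (q - p) % 2 = 0) ∧
  ∃ k : ℤ, (((q / 2 ^ s) * 2 ^ s : ℕ) : ℤ) - m ≤ k ∧ k ≤ (q:ℤ) - m ∧
    V ((q - p) / 2) (((p + q : ℕ) : ℤ) / 2 - m) + (((q - p) / 2 : ℕ) : ℤ) < H' k

lemma lt_kp (p s : ℕ) : p < (p / 2 ^ s + 1) * 2 ^ s := by
  have := Nat.lt_div_mul_add (a := p) (b := 2 ^ s) (by positivity)
  rw [add_mul, one_mul]
  exact this

lemma P1_mono {m : ℕ} {H' : ℤ → ℤ} {V : ℕ → ℤ → ℤ} (hV : IsHalf m V) (p s q q' : ℕ)
    (hqq : q ≤ q') (hB : (p / 2 ^ s + 1) * 2 ^ s ≤ q ∧ (q - p) % 2 = 0)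
    (h : P1 m H' V p s q') : P1 m H' V p s q := by
  refine ⟨hB, ?_⟩
  obtain ⟨hB', k, h1, h2, h3⟩ := h
  refine ⟨k, h1, h2, lt_of_le_of_lt ?_ h3⟩
  have hlt := lt_kp p s
  obtain ⟨n, hn⟩ : ∃ n, q' = q + 2 * n := ⟨(q' - q) / 2, by omega⟩
  have h4 := K_up_n hV ((q - p) / 2) (((p + q : ℕ) : ℤ) / 2 - m) n
  have e1 : (q' - p) / 2 = (q - p) / 2 + n := by omega
  have e2 : ((p + q' : ℕ) : ℤ) / 2 - m = ((p + q : ℕ) : ℤ) / 2 - m + n := by omega
  rw [e1, e2]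
  exact h4

lemma P2_mono {m : ℕ} {H' : ℤ → ℤ} {V : ℕ → ℤ → ℤ} (hV : IsHalf m V) (q s p p' : ℕ)
    (hpp : p' ≤ p) (hB : p ≤ (q / 2 ^ s) * 2 ^ s ∧ (q - p) % 2 = 0)
    (h : P2 m H' V q s p') : P2 m H' V q s p := by
  refine ⟨hB, ?_⟩
  obtain ⟨hB', k, h1, h2, h3⟩ := h
  refine ⟨k, h1, h2, lt_of_le_of_lt ?_ h3⟩
  have hlt : (q / 2 ^ s) * 2 ^ s ≤ q := Nat.div_mul_le_self q (2 ^ s)
  obtain ⟨n, hn⟩ : ∃ n, p = p' + 2 * n := ⟨(p - p') / 2, by omega⟩
  have h4 := K_dn_n hV ((q - p) / 2) (((p + q : ℕ) : ℤ) / 2 - m) n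
  have e1 : (q - p') / 2 = (q - p) / 2 + n := by omega
  have e2 : ((p' + q : ℕ) : ℤ) / 2 - m = ((p + q : ℕ) : ℤ) / 2 - m - n := by omega
  rw [e1, e2]
  exact h4

open Classical in
/-- first part of the code -/
noncomputable def code1 (m S : ℕ) (H' : ℤ → ℤ) (V : ℕ → ℤ → ℤ) :
    Fin (2 * m + 1) → Fin S → Fin (2 * m + 2) := fun p s =>
  ⟨((Finset.range (2 * m + 1)).filter (fun q => P1 m H' V p s q)).card, by
    have := Finset.card_filter_le (Finset.range (2 * m + 1)) (fun q => P1 m H' V p s q)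
    rw [Finset.card_range] at this
    omega⟩

open Classical in
/-- second part of the code -/
noncomputable def code2 (m S : ℕ) (H' : ℤ → ℤ) (V : ℕ → ℤ → ℤ) :
    Fin (2 * m + 1) → Fin S → Fin (2 * m + 2) := fun q s =>
  ⟨((Finset.range (2 * m + 1)).filter (fun p => P2 m H' V q s p)).card, by
    have := Finset.card_filter_le (Finset.range (2 * m + 1)) (fun p => P2 m H' V q s p)
    rw [Finset.card_range] at this
    omega⟩

lemma lost_iff {m : ℕ} {H' : ℤ → ℤ} {V : ℕ → ℤ → ℤ} (u : ℕ) (y : ℤ) (p q s : ℕ)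
    (hp : (p:ℤ) = y - u + m) (hq : (q:ℤ) = y + u + m) (hs : q / 2 ^ s = p / 2 ^ s + 1) :
    Lost H' V u y ↔ (P1 m H' V p s q ∨ P2 m H' V q s p) := by
  have hkq : (q / 2 ^ s) * 2 ^ s ≤ q := Nat.div_mul_le_self q (2 ^ s)
  have hkp := lt_kp p s
  have e1 : (q - p) / 2 = u := by omega
  have e2 : ((p + q : ℕ) : ℤ) / 2 - m = y := by omega
  have e3 : (q - p) % 2 = 0 := by omega
  unfold P1 P2 Lost
  rw [e1, e2]
  rw [hs] at hkq ⊢
  constructor
  · rintro ⟨k, h1, h2, h3⟩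
    rcases le_total k ((((p / 2 ^ s + 1) * 2 ^ s : ℕ) : ℤ) - m) with h | h
    · left
      exact ⟨⟨hkq, e3⟩, k, by omega, h, h3⟩
    · right
      exact ⟨⟨hkp.le, e3⟩, k, h, by omega, h3⟩
  · rintro (⟨_, k, h1, h2, h3⟩ | ⟨_, k, h1, h2, h3⟩)
    · exact ⟨k, by omega, by omega, h3⟩
    · exact ⟨k, by omega, by omega, h3⟩

lemma raise_code_inj {m S : ℕ} (hS : 2 * m < 2 ^ S) {H H' : ℤ → ℤ}
    (hle' : ∀ y, H' y ≤ H y + 1) {V W : ℕ → ℤ → ℤ} (hV : IsHalf m V) (hW : IsHalf m W)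
    (hVH : V 0 = H) (hWH : W 0 = H) (hr : raise H' V = raise H' W)
    (h1 : code1 m S H' V = code1 m S H' W) (h2 : code2 m S H' V = code2 m S H' W) : V = W := by
  classical
  funext u y
  rcases Nat.eq_zero_or_pos u with hu | hu
  · rw [hu, hVH, hWH]
  by_cases hout : (m:ℤ) ≤ u + y ∨ (m:ℤ) ≤ u - y
  · rw [hV.supp u y hout, hW.supp u y hout]
  obtain ⟨p, hp⟩ := Int.eq_ofNat_of_zero_le (show 0 ≤ y - u + m by omega)
  obtain ⟨q, hq⟩ := Int.eq_ofNat_of_zero_le (show 0 ≤ y + u + m by omega)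
  obtain ⟨s, hsS, hs⟩ := separate p q S (by omega) (lt_of_le_of_lt (by omega) hS)
  have hr' : raise H' V u y = raise H' W u y := by rw [hr]
  apply eq_of_raise_eq hV hW (by rw [hVH]; exact hle') (by rw [hWH]; exact hle') u y hr'
  rw [lost_iff (m := m) u y p q s (by omega) (by omega) hs,
    lost_iff (m := m) u y p q s (by omega) (by omega) hs]
  have c1 := congrArg (fun f => (f ⟨p, by omega⟩ ⟨s, hsS⟩).val) h1
  have c2 := congrArg (fun f => (f ⟨q, by omega⟩ ⟨s, hsS⟩).val) h2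
  simp only [code1, code2] at c1 c2
  have d1 := chain_eq (fun a b => a ≤ b) (fun a b => le_total a b)
    (fun q => (p / 2 ^ s + 1) * 2 ^ s ≤ q ∧ (q - p) % 2 = 0) (fun q => P1 m H' V p s q)
    (fun q => P1 m H' W p s q)
    (fun q q' h hB hq' => P1_mono hV p s q q' h hB hq') (fun q h => h.1)
    (fun q q' h hB hq' => P1_mono hW p s q q' h hB hq') (fun q h => h.1) (2 * m + 1) c1 q (by omega)
  have d2 := chain_eq (fun a b => b ≤ a) (fun a b => le_total b a)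
    (fun p => p ≤ (q / 2 ^ s) * 2 ^ s ∧ (q - p) % 2 = 0) (fun p => P2 m H' V q s p)
    (fun p => P2 m H' W q s p)
    (fun p p' h hB hp' => P2_mono hV q s p p' h hB hp') (fun p h => h.1)
    (fun p p' h hB hp' => P2_mono hW q s p p' h hB hp') (fun p h => h.1) (2 * m + 1) c2 p (by omega)
  rw [d1, d2]

open Classical in
/-- comparison of neighbouring axis states -/
lemma LL_le {m S : ℕ} (hS : 2 * m < 2 ^ S) {H H' : ℤ → ℤ} (hH' : IsAxis m H')
    (hle : ∀ y, H y ≤ H' y) (hle' : ∀ y, H' y ≤ H y + 1) :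
    LL m H ≤ LL m H' * (2 * m + 2) ^ (2 * (S * (2 * m + 1))) := by
  have h1 : LL m H ≤ (((HF m).filter (fun V => V 0 = H')) ×ˢ
      (Finset.univ : Finset ((Fin (2 * m + 1) → Fin S → Fin (2 * m + 2)) ×
        (Fin (2 * m + 1) → Fin S → Fin (2 * m + 2))))).card := by
    unfold LL
    apply Finset.card_le_card_of_injOn (fun V => (raise H' V, (code1 m S H' V, code2 m S H' V)))
    · intro V hV
      simp only [Finset.coe_filter, Set.mem_ofPred_eq, mem_HF] at hV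
      simp only [Finset.coe_product, Set.mem_prod, Finset.coe_filter, Set.mem_ofPred_eq, mem_HF,
        Finset.coe_univ, Set.mem_univ, and_true]
      exact ⟨raise_half hH' hV.1, raise_axis (by rw [hV.2]; exact hle)⟩
    · intro V hV W hW hVW
      simp only [Finset.coe_filter, Set.mem_ofPred_eq, mem_HF] at hV hW
      simp only [Prod.mk.injEq] at hVW
      exact raise_code_inj hS hle' hV.1 hW.1 hV.2 hW.2 hVW.1 hVW.2.1 hVW.2.2
  refine h1.trans (le_of_eq ?_)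
  rw [Finset.card_product]
  unfold LL
  congr 1
  rw [Finset.card_univ, Fintype.card_prod, Fintype.card_fun, Fintype.card_fun, Fintype.card_fin,
    Fintype.card_fin, Fintype.card_fin, ← pow_mul, ← pow_add]
  congr 1
  ring

end Pool.Agent.Lib.MP_315d97_co
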