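import Mathlib

/-!
Domino tilings of Aztec diamonds, their diagonal cells, and the two classes of tilings counted in
the problem.
-/

set_option autoImplicit false

namespace Pool.Agent.Lib.MP_315d97_co

/-- The closed unit lattice square `[a, a+1] × [b, b+1]`, recorded by its lower left corner
`s = (a, b)`, is a unit square of the Aztec diamond `AD(m)` when it is contained in
`{(x, y) : |x| + |y| ≤ m + 1}`. -/
def InAztec (m : ℕ) (s : ℤ × ℤ) : Prop :=
  ∀ x y : ℝ, (s.1 : ℝ) ≤ x → x ≤ s.1 + 1 → (s.2 : ℝ) ≤ y → y ≤ s.2 + 1 → |x| + |y| ≤ m + 1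

/-- Dominoes: `hor a b` is the union of the unit squares with lower left corners `(a, b)` and
`(a + 1, b)`, and `ver a b` is the union of those with lower left corners `(a, b)` and
`(a, b + 1)`. -/
inductive Domino : Type
  | hor (a b : ℤ) : Domino
  | ver (a b : ℤ) : Domino
  deriving DecidableEq

/-- The two unit squares of a domino. -/
def Domino.squares : Domino → Finset (ℤ × ℤ)
  | .hor a b => {(a, b), (a + 1, b)}
  | .ver a b => {(a, b), (a, b + 1)}

/-- Domino tilings of `AD(m)`: sets of dominoes lying in `AD(m)` such that every unit square of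
`AD(m)` is covered by exactly one of them. -/
structure IsTiling (m : ℕ) (T : Finset Domino) : Prop where
  inside : ∀ d ∈ T, ∀ s ∈ d.squares, InAztec m s
  cover : ∀ s, InAztec m s → ∃! d, d ∈ T ∧ s ∈ d.squares

/-- Invariance under the reflection in the vertical diagonal (the line `x = 0`), which maps the
unit square with lower left corner `(a, b)` to the one with lower left corner `(-a-1, b)`. -/
def IsSymm (T : Finset Domino) : Prop :=
  ∀ d ∈ T, ∃ e ∈ T, e.squares = d.squares.image (fun s => (-s.1 - 1, s.2))

/-- The checkerboard colouring for which the squares along the upper right boundary of `AD(m)`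
(those `(a, b)` with `a, b ≥ 0` and `a + b = m - 1`) are black. -/
def Black (m : ℕ) (s : ℤ × ℤ) : Prop := Even (s.1 + s.2 - ((m : ℤ) - 1))

/-- The `2 × 2` block of unit squares whose bottom left square is `s`. -/
def block (s : ℤ × ℤ) : Finset (ℤ × ℤ) :=
  {(s.1, s.2), (s.1 + 1, s.2), (s.1, s.2 + 1), (s.1 + 1, s.2 + 1)}

/-- `b` is the height of a diagonal cell: the block with bottom left square `(-1, b)` is centred
on the vertical diagonal, lies in `AD(m)`, and its bottom left (hence also its top right) square
is black. -/
def IsDiagCell (m : ℕ) (b : ℤ) : Prop :=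
  Black m (-1, b) ∧ ∀ s ∈ block (-1, b), InAztec m s

/-- The value of the diagonal cell of height `b`: the number of whole dominoes it contains,
minus one. -/
def cellValue (T : Finset Domino) (b : ℤ) : ℤ :=
  ((T.filter (fun d => d.squares ⊆ block (-1, b))).card : ℤ) - 1

/-- Off-diagonally symmetric tilings of `AD(m)`. -/
def offDiag (m : ℕ) : Set (Finset Domino) :=
  {T | IsTiling m T ∧ IsSymm T ∧ ∀ b, IsDiagCell m b → cellValue T b = 0}

/-- Nearly off-diagonally symmetric tilings of `AD(m)`. -/
def nearOffDiag (m : ℕ) : Set (Finset Domino) :=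
  {T | IsTiling m T ∧ IsSymm T ∧
    ∃ b, IsDiagCell m b ∧ (cellValue T b = 1 ∨ cellValue T b = -1) ∧
      ∀ c, IsDiagCell m c → c ≠ b → cellValue T c = 0}

end Pool.Agent.Lib.MP_315d97_co
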