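import Mathlib
import Pool.Agent.Lib.MP_315d97_co.Code

/-!
Rounding an axis state to an off-diagonal one, and the resulting bounds in terms of half
height functions.
-/

set_option autoImplicit false

namespace Pool.Agent.Lib.MP_315d97_co

open Finset

/-- the rounded value at the vertices of the first kind -/
noncomputable def RR (m : ℕ) (H : ℤ → ℤ) (y : ℤ) : ℤ :=
  if -(m:ℤ) < y ∧ y < m then H y + (H y - (y + m) / 2) % 2 else 0

/-- the rounded axis state -/
noncomputable def round (m : ℕ) (H : ℤ → ℤ) (y : ℤ) : ℤ :=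
  if (y + m) % 2 = 0 then RR m H y
  else if -(m:ℤ) < y ∧ y < m then max (H y) (max (RR m H (y-1)) (RR m H (y+1))) else 0

lemma RR_parity {m : ℕ} (hm : m % 2 = 0) {H : ℤ → ℤ}
    {y : ℤ} (hp : (y + m) % 2 = 0) (h1 : -(m:ℤ) ≤ y) (h2 : y ≤ m) :
    (RR m H y - (y + m) / 2) % 2 = 0 := by
  unfold RR
  split_ifs with h <;> omega

lemma RR_ge {m : ℕ} {H : ℤ → ℤ} (h : IsAxis m H) (y : ℤ) : H y ≤ RR m H y := by
  unfold RR
  split_ifs with h1
  · omega
  · rw [h.supp y (by omega)]

lemma RR_le {m : ℕ} {H : ℤ → ℤ} (h : IsAxis m H) (y : ℤ) : RR m H y ≤ H y + 1 := by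
  unfold RR
  split_ifs with h1
  · omega
  · rw [h.supp y (by omega)]
    omega

lemma RR_step {m : ℕ} (hm : m % 2 = 0) {H : ℤ → ℤ} (h : IsAxis m H) {y : ℤ}
    (hp : (y + m) % 2 = 0) (h1 : -(m:ℤ) ≤ y) (h2 : y ≤ (m:ℤ) - 2) :
    RR m H (y+2) = RR m H y + 1 ∨ RR m H (y+2) = RR m H y - 1 := by
  have a := RR_parity hm (H := H) hp h1 (by omega)
  have b := RR_parity hm (H := H) (y := y+2) (by omega) (by omega) (by omega)
  have c1 := RR_ge h y
  have c2 := RR_le h y
  have c3 := RR_ge h (y+2)
  have c4 := RR_le h (y+2)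
  have d1 := h.ve y hp
  have d2 := h.vo (y+1) (by omega)
  have e : y + 1 + 1 = y + 2 := by ring
  rw [e] at d2
  omega

lemma round_axis {m : ℕ} (hm : m % 2 = 0) {H : ℤ → ℤ} (h : IsAxis m H) :
    IsAxis m (round m H) := by
  constructor
  · intro y hy
    unfold round RR
    split_ifs <;> omega
  · intro y hp
    unfold round
    rw [if_pos hp, if_neg (by omega : ¬ (y + 1 + (m:ℤ)) % 2 = 0)]
    split_ifs with hin
    · have e1 : y + 1 - 1 = y := by ring
      have e2 : y + 1 + 1 = y + 2 := by ring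
      rw [e1, e2]
      have a := RR_step hm h hp (by omega) (by omega)
      have b := (h.ve y hp).2
      have c := RR_ge h y
      omega
    · have : RR m H y = 0 := by
        unfold RR
        rw [if_neg (by omega)]
      omega
  · intro y hp
    unfold round
    rw [if_neg (by omega : ¬ (y + (m:ℤ)) % 2 = 0), if_pos (by omega : (y + 1 + (m:ℤ)) % 2 = 0)]
    split_ifs with hin
    · have a := RR_step hm h (y := y - 1) (by omega) (by omega) (by omega)
      have e1 : y - 1 + 2 = y + 1 := by ring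
      rw [e1] at a
      have b := (h.vo y hp).2
      have c := RR_ge h (y+1)
      omega
    · have : RR m H (y+1) = 0 := by
        unfold RR
        rw [if_neg (by omega)]
      omega

lemma round_ge {m : ℕ} {H : ℤ → ℤ} (h : IsAxis m H) (y : ℤ) : H y ≤ round m H y := by
  unfold round
  split_ifs with h1 h2
  · exact RR_ge h y
  · omega
  · rw [h.supp y (by omega)]

lemma round_le {m : ℕ} {H : ℤ → ℤ} (h : IsAxis m H) (y : ℤ) : round m H y ≤ H y + 1 := by
  unfold round
  split_ifs with h1 h2
  · exact RR_le h y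
  · have a := RR_le h (y-1)
    have b := RR_le h (y+1)
    have c := h.ve (y-1) (by omega)
    have d := h.vo y (by omega)
    rw [sub_add_cancel] at c
    omega
  · rw [h.supp y (by omega)]
    omega

/-- the off-diagonal condition on an axis state -/
def OffAx (m : ℕ) (H : ℤ → ℤ) : Prop :=
  ∀ b : ℤ, (b + m) % 2 = 0 → -(m:ℤ) ≤ b → b ≤ (m:ℤ) - 2 → H (b+2) ≠ H b

/-- the nearly off-diagonal condition on an axis state -/
def NearAx (m : ℕ) (H : ℤ → ℤ) : Prop :=
  ∃ b : ℤ, (b + m) % 2 = 0 ∧ -(m:ℤ) ≤ b ∧ b ≤ (m:ℤ) - 2 ∧ H (b+2) = H b ∧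
    ∀ c : ℤ, (c + m) % 2 = 0 → -(m:ℤ) ≤ c → c ≤ (m:ℤ) - 2 → c ≠ b → H (c+2) ≠ H c

lemma round_off {m : ℕ} (hm : m % 2 = 0) {H : ℤ → ℤ} (h : IsAxis m H) : OffAx m (round m H) := by
  intro b hp h1 h2
  unfold round
  rw [if_pos hp, if_pos (by omega)]
  have a := RR_step hm h hp h1 h2
  omega

open Classical in
/-- half height functions with off-diagonal axis state -/
noncomputable def OV (m : ℕ) : Finset (ℕ → ℤ → ℤ) := (HF m).filter (fun V => OffAx m (V 0))

open Classical in
/-- half height functions with nearly off-diagonal axis state -/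
noncomputable def DV (m : ℕ) : Finset (ℕ → ℤ → ℤ) := (HF m).filter (fun V => NearAx m (V 0))

lemma OV_lower {m S : ℕ} (hm : m % 2 = 0) (hS : 2 * m < 2 ^ S) :
    FF m ≤ 2 ^ (2 * m) * ((OV m).card * (2 * m + 2) ^ (2 * (S * (2 * m + 1)))) ^ 2 := by
  classical
  obtain ⟨s, hs, hle⟩ := exists_large m
  have hax : IsAxis m s := by
    unfold AXS at hs
    rw [Finset.mem_image] at hs
    obtain ⟨V, hV, rfl⟩ := hs
    rw [mem_HF] at hV
    exact hV.axis
  have h1 := LL_le hS (round_axis hm hax) (round_ge hax) (round_le hax)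
  have h2 : LL m (round m s) ≤ (OV m).card := by
    unfold LL OV
    apply Finset.card_le_card
    intro V hV
    rw [Finset.mem_filter] at hV ⊢
    exact ⟨hV.1, by rw [hV.2]; exact round_off hm hax⟩
  refine hle.trans (Nat.mul_le_mul_left _ (Nat.pow_le_pow_left ?_ 2))
  exact h1.trans (Nat.mul_le_mul_right _ h2)

lemma OV_upper (m : ℕ) : (OV m).card ^ 2 ≤ 2 ^ (2 * m) * FF m := by
  classical
  refine le_trans (Nat.pow_le_pow_left ?_ 2) (HF_card_sq_le m)
  unfold OV
  exact Finset.card_filter_le _ _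

lemma DV_upper (m : ℕ) : (DV m).card ^ 2 ≤ 2 ^ (2 * m) * FF m := by
  classical
  refine le_trans (Nat.pow_le_pow_left ?_ 2) (HF_card_sq_le m)
  unfold DV
  exact Finset.card_filter_le _ _

/-- shifting a half height function by one unit -/
def shift (V : ℕ → ℤ → ℤ) (u : ℕ) (y : ℤ) : ℤ := V u (y-1)

lemma shift_half {m : ℕ} {V : ℕ → ℤ → ℤ} (h : IsHalf m V) : IsHalf (m+1) (shift V) := by
  constructor
  · intro u y hh
    push_cast at hh
    exact h.supp u (y-1) (by omega)
  · intro u y hp
    push_cast at hp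
    have := h.ve u (y-1) (by omega)
    rw [sub_add_cancel] at this
    unfold shift
    rw [add_sub_cancel_right]
    exact this
  · intro u y hp
    push_cast at hp
    have := h.vo u (y-1) (by omega)
    rw [sub_add_cancel] at this
    unfold shift
    rw [add_sub_cancel_right]
    exact this
  · intro u y
    exact h.hz u (y-1)

lemma DV_lower (m : ℕ) : (OV m).card ≤ (DV (m+1)).card := by
  classical
  apply Finset.card_le_card_of_injOn shift
  · intro V hV
    simp only [OV, DV, Finset.coe_filter, Set.mem_ofPred_eq, mem_HF] at hV ⊢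
    refine ⟨shift_half hV.1, -(m:ℤ) - 1, ?_, ?_, ?_, ?_, ?_⟩
    · push_cast; omega
    · push_cast; omega
    · push_cast; omega
    · unfold shift
      rw [hV.1.supp 0 _ (by push_cast; omega), hV.1.supp 0 _ (by push_cast; omega)]
    · intro c hc h1 h2 h3
      push_cast at hc h1 h2
      have := hV.2 (c-1) (by omega) (by omega) (by omega)
      unfold shift
      have e : c - 1 + 2 = c + 2 - 1 := by ring
      rw [e] at this
      exact this
  · intro V hV W hW hVW
    funext u y
    have := congrFun (congrFun hVW u) (y+1)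
    unfold shift at this
    rw [add_sub_cancel_right] at this
    exact this

end Pool.Agent.Lib.MP_315d97_co
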