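import Mathlib
import Pool.Agent.Lib.MP_315d97_co.Def
import Pool.Agent.Lib.MP_315d97_co.Off

/-!
Symmetric domino tilings and half height functions.
-/

set_option autoImplicit false

namespace Pool.Agent.Lib.MP_315d97_co

open Finset Domino

lemma inAztec_iff (m : ℕ) (a b : ℤ) : InAztec m (a, b) ↔ |2 * a + 1| + |2 * b + 1| ≤ 2 * m := by
  unfold InAztec
  simp only
  constructor
  · intro h
    have key : ∀ x ∈ ({a, a+1} : Set ℤ), ∀ y ∈ ({b, b+1} : Set ℤ), |x| + |y| ≤ m + 1 := by
      intro x hx y hy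
      have := h x y (by rcases hx with rfl | rfl <;> push_cast <;> linarith)
        (by rcases hx with rfl | rfl <;> push_cast <;> linarith)
        (by rcases hy with rfl | rfl <;> push_cast <;> linarith)
        (by rcases hy with rfl | rfl <;> push_cast <;> linarith)
      exact_mod_cast this
    have h1 := key a (by simp) b (by simp)
    have h2 := key a (by simp) (b+1) (by simp)
    have h3 := key (a+1) (by simp) b (by simp)
    have h4 := key (a+1) (by simp) (b+1) (by simp)
    rcases abs_cases a with ha | ha <;> rcases abs_cases b with hb | hb <;>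
      rcases abs_cases (a+1) with ha' | ha' <;> rcases abs_cases (b+1) with hb' | hb' <;>
      rcases abs_cases (2*a+1) with hc | hc <;> rcases abs_cases (2*b+1) with hd | hd <;> omega
  · intro h x y h1 h2 h3 h4
    have hx : |x| ≤ ((|2 * a + 1| + 1 : ℤ) : ℝ) / 2 := by
      rcases abs_cases (2*a+1) with hc | hc
      · rw [hc.1, abs_le]
        have : (0:ℝ) ≤ 2 * a + 1 := by exact_mod_cast hc.2
        push_cast
        constructor <;> linarith
      · rw [hc.1, abs_le]
        have : (2:ℝ) * a + 1 < 0 := by exact_mod_cast hc.2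
        push_cast
        constructor <;> linarith
    have hy : |y| ≤ ((|2 * b + 1| + 1 : ℤ) : ℝ) / 2 := by
      rcases abs_cases (2*b+1) with hc | hc
      · rw [hc.1, abs_le]
        have : (0:ℝ) ≤ 2 * b + 1 := by exact_mod_cast hc.2
        push_cast
        constructor <;> linarith
      · rw [hc.1, abs_le]
        have : (2:ℝ) * b + 1 < 0 := by exact_mod_cast hc.2
        push_cast
        constructor <;> linarith
    have h' : ((|2 * a + 1| + |2 * b + 1| : ℤ) : ℝ) ≤ 2 * m := by exact_mod_cast h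
    push_cast at hx hy h'
    linarith

/-- for a square in column `-u-1` -/
lemma inAztec_left (m : ℕ) (u : ℕ) (b : ℤ) :
    InAztec m (-(u:ℤ) - 1, b) ↔ (u:ℤ) - m ≤ b ∧ b ≤ (m:ℤ) - u - 1 := by
  rw [inAztec_iff]
  rcases abs_cases (2*(-(u:ℤ) - 1)+1) with hc | hc <;>
    rcases abs_cases (2*b+1) with hd | hd <;> omega

lemma inAztec_refl (m : ℕ) (a b : ℤ) : InAztec m (-a - 1, b) ↔ InAztec m (a, b) := by
  rw [inAztec_iff, inAztec_iff]
  have : 2 * (-a - 1) + 1 = -(2 * a + 1) := by ring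
  rw [this, abs_neg]

lemma mem_hor (s : ℤ × ℤ) (a b : ℤ) :
    s ∈ (hor a b).squares ↔ s = (a, b) ∨ s = (a+1, b) := by
  unfold Domino.squares
  simp

lemma mem_ver (s : ℤ × ℤ) (a b : ℤ) :
    s ∈ (ver a b).squares ↔ s = (a, b) ∨ s = (a, b+1) := by
  unfold Domino.squares
  simp

lemma mem_squares_iff (d : Domino) (a b : ℤ) :
    (a, b) ∈ d.squares ↔ d = hor a b ∨ d = hor (a-1) b ∨ d = ver a b ∨ d = ver a (b-1) := by
  cases d with
  | hor x y =>
    rw [mem_hor]
    simp only [Prod.mk.injEq, Domino.hor.injEq, reduceCtorEq, or_false]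
    omega
  | ver x y =>
    rw [mem_ver]
    simp only [Prod.mk.injEq, Domino.ver.injEq, reduceCtorEq, false_or]
    omega

/-- reflected domino -/
def refl : Domino → Domino
  | hor a b => hor (-a-2) b
  | ver a b => ver (-a-1) b

lemma squares_refl (d : Domino) :
    (refl d).squares = d.squares.image (fun s => (-s.1 - 1, s.2)) := by
  ext ⟨x, y⟩
  cases d with
  | hor a b =>
    simp only [refl, Domino.squares, Finset.mem_insert, Finset.mem_singleton, Finset.mem_image,
      exists_eq_or_imp, exists_eq_left, Prod.mk.injEq]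
    omega
  | ver a b =>
    simp only [refl, Domino.squares, Finset.mem_insert, Finset.mem_singleton, Finset.mem_image,
      exists_eq_or_imp, exists_eq_left, Prod.mk.injEq]
    omega

lemma squares_inj {d e : Domino} (h : d.squares = e.squares) : d = e := by
  have h1 : ∀ s, s ∈ d.squares ↔ s ∈ e.squares := fun s => by rw [h]
  cases d with
  | hor a b =>
    have k1 := (h1 (a, b)).1 (by rw [mem_hor]; simp)
    have k2 := (h1 (a+1, b)).1 (by rw [mem_hor]; simp)
    rw [mem_squares_iff] at k1 k2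
    cases e with
    | hor x y =>
      simp only [Domino.hor.injEq, reduceCtorEq, or_false] at k1 k2 ⊢
      omega
    | ver x y =>
      simp only [Domino.ver.injEq, reduceCtorEq, false_or] at k1 k2 ⊢
      omega
  | ver a b =>
    have k1 := (h1 (a, b)).1 (by rw [mem_ver]; simp)
    have k2 := (h1 (a, b+1)).1 (by rw [mem_ver]; simp)
    rw [mem_squares_iff] at k1 k2
    cases e with
    | hor x y =>
      simp only [Domino.hor.injEq, reduceCtorEq, or_false] at k1 k2 ⊢
      omega
    | ver x y =>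
      simp only [Domino.ver.injEq, reduceCtorEq, false_or] at k1 k2 ⊢
      omega

lemma isSymm_iff (T : Finset Domino) : IsSymm T ↔ ∀ d ∈ T, refl d ∈ T := by
  unfold IsSymm
  constructor
  · intro h d hd
    obtain ⟨e, he, hs⟩ := h d hd
    rw [← squares_refl] at hs
    rw [← squares_inj hs]
    exact he
  · intro h d hd
    exact ⟨refl d, h d hd, squares_refl d⟩

lemma refl_refl (d : Domino) : refl (refl d) = d := by
  cases d with
  | hor a b => simp [refl]
  | ver a b => simp [refl]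

/-- indicator -/
def ind (P : Prop) [Decidable P] : ℤ := if P then 1 else 0

lemma ind_one {P : Prop} [Decidable P] : ind P = 1 ↔ P := by
  unfold ind; split_ifs <;> simp_all

lemma ind_zero {P : Prop} [Decidable P] : ind P = 0 ↔ ¬ P := by
  unfold ind; split_ifs <;> simp_all

lemma ind_cases (P : Prop) [Decidable P] : ind P = 0 ∨ ind P = 1 := by
  unfold ind; split_ifs <;> simp

lemma face {m : ℕ} {T : Finset Domino} (hT : IsTiling m T) {a b : ℤ} (h : InAztec m (a, b)) :
    ind (hor a b ∈ T) + ind (hor (a-1) b ∈ T) + ind (ver a b ∈ T) + ind (ver a (b-1) ∈ T) = 1 := by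
  obtain ⟨d, ⟨hd, hs⟩, hu⟩ := hT.cover (a, b) h
  have hu' : ∀ e, e ∈ T → (a, b) ∈ e.squares → e = d := fun e he hse => hu e ⟨he, hse⟩
  have m1 : (a, b) ∈ (hor a b).squares := by rw [mem_squares_iff]; simp
  have m2 : (a, b) ∈ (hor (a-1) b).squares := by rw [mem_squares_iff]; simp
  have m3 : (a, b) ∈ (ver a b).squares := by rw [mem_squares_iff]; simp
  have m4 : (a, b) ∈ (ver a (b-1)).squares := by rw [mem_squares_iff]; simp
  have n1 : hor a b ≠ hor (a-1) b := by intro hh; rw [Domino.hor.injEq] at hh; omega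
  have n2 : ver a b ≠ ver a (b-1) := by intro hh; rw [Domino.ver.injEq] at hh; omega
  rw [mem_squares_iff] at hs
  unfold ind
  rcases hs with rfl | rfl | rfl | rfl
  · have e2 : hor (a-1) b ∉ T := fun hh => n1 (hu' _ hh m2).symm
    have e3 : ver a b ∉ T := fun hh => by simpa using hu' _ hh m3
    have e4 : ver a (b-1) ∉ T := fun hh => by simpa using hu' _ hh m4
    simp [hd, e2, e3, e4]
  · have e2 : hor a b ∉ T := fun hh => n1 (hu' _ hh m1)
    have e3 : ver a b ∉ T := fun hh => by simpa using hu' _ hh m3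
    have e4 : ver a (b-1) ∉ T := fun hh => by simpa using hu' _ hh m4
    simp [hd, e2, e3, e4]
  · have e2 : hor (a-1) b ∉ T := fun hh => by simpa using hu' _ hh m2
    have e3 : hor a b ∉ T := fun hh => by simpa using hu' _ hh m1
    have e4 : ver a (b-1) ∉ T := fun hh => n2 (hu' _ hh m4).symm
    simp [hd, e2, e3, e4]
  · have e2 : hor (a-1) b ∉ T := fun hh => by simpa using hu' _ hh m2
    have e3 : hor a b ∉ T := fun hh => by simpa using hu' _ hh m1
    have e4 : ver a b ∉ T := fun hh => n2 (hu' _ hh m3)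
    simp [hd, e2, e3, e4]

lemma tiling_of_face {m : ℕ} {T : Finset Domino} (hin : ∀ d ∈ T, ∀ s ∈ d.squares, InAztec m s)
    (h : ∀ a b : ℤ, InAztec m (a, b) → ind (hor a b ∈ T) + ind (hor (a-1) b ∈ T) +
      ind (ver a b ∈ T) + ind (ver a (b-1) ∈ T) = 1) : IsTiling m T := by
  refine ⟨hin, ?_⟩
  rintro ⟨a, b⟩ hab
  have hf := h a b hab
  have c1 := ind_cases (hor a b ∈ T)
  have c2 := ind_cases (hor (a-1) b ∈ T)
  have c3 := ind_cases (ver a b ∈ T)
  have c4 := ind_cases (ver a (b-1) ∈ T)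
  have m1 : (a, b) ∈ (hor a b).squares := by rw [mem_squares_iff]; simp
  have m2 : (a, b) ∈ (hor (a-1) b).squares := by rw [mem_squares_iff]; simp
  have m3 : (a, b) ∈ (ver a b).squares := by rw [mem_squares_iff]; simp
  have m4 : (a, b) ∈ (ver a (b-1)).squares := by rw [mem_squares_iff]; simp
  have key : (ind (hor a b ∈ T) = 1 ∧ ind (hor (a-1) b ∈ T) = 0 ∧ ind (ver a b ∈ T) = 0 ∧
        ind (ver a (b-1) ∈ T) = 0) ∨
      (ind (hor a b ∈ T) = 0 ∧ ind (hor (a-1) b ∈ T) = 1 ∧ ind (ver a b ∈ T) = 0 ∧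
        ind (ver a (b-1) ∈ T) = 0) ∨
      (ind (hor a b ∈ T) = 0 ∧ ind (hor (a-1) b ∈ T) = 0 ∧ ind (ver a b ∈ T) = 1 ∧
        ind (ver a (b-1) ∈ T) = 0) ∨
      (ind (hor a b ∈ T) = 0 ∧ ind (hor (a-1) b ∈ T) = 0 ∧ ind (ver a b ∈ T) = 0 ∧
        ind (ver a (b-1) ∈ T) = 1) := by omega
  simp only [ind_one, ind_zero] at key
  rcases key with ⟨k1, k2, k3, k4⟩ | ⟨k1, k2, k3, k4⟩ | ⟨k1, k2, k3, k4⟩ | ⟨k1, k2, k3, k4⟩
  · refine ⟨hor a b, ⟨k1, m1⟩, ?_⟩
    rintro e ⟨he, hse⟩
    rw [mem_squares_iff] at hse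
    rcases hse with rfl | rfl | rfl | rfl
    · rfl
    · exact absurd he k2
    · exact absurd he k3
    · exact absurd he k4
  · refine ⟨hor (a-1) b, ⟨k2, m2⟩, ?_⟩
    rintro e ⟨he, hse⟩
    rw [mem_squares_iff] at hse
    rcases hse with rfl | rfl | rfl | rfl
    · exact absurd he k1
    · rfl
    · exact absurd he k3
    · exact absurd he k4
  · refine ⟨ver a b, ⟨k3, m3⟩, ?_⟩
    rintro e ⟨he, hse⟩
    rw [mem_squares_iff] at hse
    rcases hse with rfl | rfl | rfl | rfl
    · exact absurd he k1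
    · exact absurd he k2
    · rfl
    · exact absurd he k4
  · refine ⟨ver a (b-1), ⟨k4, m4⟩, ?_⟩
    rintro e ⟨he, hse⟩
    rw [mem_squares_iff] at hse
    rcases hse with rfl | rfl | rfl | rfl
    · exact absurd he k1
    · exact absurd he k2
    · exact absurd he k3
    · rfl

/-! ### from tilings to half height functions -/

/-- signed crossing indicator -/
def ee (m : ℕ) (T : Finset Domino) (u : ℕ) (b : ℤ) : ℤ :=
  if hor (-(u:ℤ) - 1) b ∈ T then (if ((u:ℤ) + b + m) % 2 = 0 then 1 else -1) else 0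

/-- the half height function of a tiling -/
noncomputable def VT (m : ℕ) (T : Finset Domino) (u : ℕ) (y : ℤ) : ℤ :=
  ∑ b ∈ Finset.Ico (-(m:ℤ)) y, ee m T u b

lemma ee_out {m : ℕ} {T : Finset Domino} (hT : IsTiling m T) (u : ℕ) (b : ℤ)
    (h : b < (u:ℤ) - m ∨ (m:ℤ) - u - 1 < b) : ee m T u b = 0 := by
  unfold ee
  rw [if_neg]
  intro hh
  have := hT.inside _ hh (-(u:ℤ) - 1, b) (by rw [mem_hor]; simp)
  rw [inAztec_left] at this
  omega

lemma VT_step {m : ℕ} {T : Finset Domino} (hT : IsTiling m T) (u : ℕ) (y : ℤ) :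
    VT m T u (y+1) = VT m T u y + ee m T u y := by
  unfold VT
  by_cases hy : -(m:ℤ) ≤ y
  · have : Finset.Ico (-(m:ℤ)) (y+1) = insert y (Finset.Ico (-(m:ℤ)) y) := by
      ext x; simp only [Finset.mem_Ico, Finset.mem_insert]; omega
    rw [this, Finset.sum_insert (by simp)]
    ring
  · rw [Finset.Ico_eq_empty (by omega), Finset.Ico_eq_empty (by omega), ee_out hT u y (by omega)]
    simp

lemma VT_low {m : ℕ} {T : Finset Domino} (hT : IsTiling m T) (u : ℕ) (y : ℤ)
    (hy : y ≤ (u:ℤ) - m) : VT m T u y = 0 := by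
  unfold VT
  apply Finset.sum_eq_zero
  intro b hb
  rw [Finset.mem_Ico] at hb
  exact ee_out hT u b (by omega)

lemma ver_out {m : ℕ} {T : Finset Domino} (hT : IsTiling m T) (u : ℕ) (y : ℤ)
    (h : y ≤ (u:ℤ) - m ∨ (m:ℤ) - u ≤ y) : ver (-(u:ℤ) - 1) (y-1) ∉ T := by
  intro hh
  have h1 := hT.inside _ hh (-(u:ℤ) - 1, y-1) (by rw [mem_ver]; simp)
  have h2 := hT.inside _ hh (-(u:ℤ) - 1, y-1+1) (by rw [mem_ver]; simp)
  rw [inAztec_left] at h1 h2
  omega

/-- the main relation between the height function and the vertical dominoes -/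
lemma VT_rel {m : ℕ} {T : Finset Domino} (hT : IsTiling m T) (u : ℕ) (hu : u ≤ m) (n : ℕ)
    (hn : n ≤ 2 * (m - u)) :
    VT m T u ((u:ℤ) - m + n) - VT m T (u+1) ((u:ℤ) - m + n) =
      if n % 2 = 0 then ind (ver (-(u:ℤ) - 1) ((u:ℤ) - m + n - 1) ∈ T)
      else 1 - ind (ver (-(u:ℤ) - 1) ((u:ℤ) - m + n - 1) ∈ T) := by
  induction n with
  | zero =>
    rw [VT_low hT u _ (by push_cast; omega), VT_low hT (u+1) _ (by push_cast; omega)]
    have := ver_out hT u ((u:ℤ) - m + (0:ℕ)) (by push_cast; omega)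
    rw [if_pos rfl, ind_zero.2 this]
    simp
  | succ n ih =>
    have ih' := ih (by omega)
    set y : ℤ := (u:ℤ) - m + n with hy
    have e1 : (u:ℤ) - m + ((n+1:ℕ):ℤ) = y + 1 := by rw [hy]; push_cast; ring
    rw [e1, VT_step hT, VT_step hT]
    have hin : InAztec m (-(u:ℤ) - 1, y) := by
      rw [inAztec_left]; omega
    have hf := face hT hin
    have e2 : y + 1 - 1 = y := by ring
    rw [e2]
    have e3 : -(u:ℤ) - 1 - 1 = -((u+1:ℕ):ℤ) - 1 := by push_cast; ring
    rw [e3] at hf
    unfold ee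
    unfold ind at hf ih' ⊢
    have p1 : ((u:ℤ) + y + m) % 2 = (n:ℤ) % 2 := by omega
    have p2 : (((u+1:ℕ):ℤ) + y + m) % 2 = ((n:ℤ) + 1) % 2 := by push_cast; omega
    rw [p1, p2]
    rcases Nat.mod_two_eq_zero_or_one n with hp | hp
    · have q1 : (n:ℤ) % 2 = 0 := by omega
      have q2 : ((n:ℤ) + 1) % 2 = 1 := by omega
      have q3 : (n+1) % 2 = 1 := by omega
      rw [q1, q2, q3]
      rw [hp] at ih'
      simp only [if_true, one_ne_zero, if_false] at ih' ⊢
      split_ifs at hf ih' ⊢ <;> omega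
    · have q1 : (n:ℤ) % 2 = 1 := by omega
      have q2 : ((n:ℤ) + 1) % 2 = 0 := by omega
      have q3 : (n+1) % 2 = 0 := by omega
      rw [q1, q2, q3]
      rw [hp] at ih'
      simp only [if_true, one_ne_zero, if_false] at ih' ⊢
      split_ifs at hf ih' ⊢ <;> omega

end Pool.Agent.Lib.MP_315d97_co
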