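import Mathlib
import Pool.Agent.Lib.MP_315d97_co.Tile

/-!
Symmetric domino tilings and half height functions: the two injections.
-/

set_option autoImplicit false

namespace Pool.Agent.Lib.MP_315d97_co

open Finset Domino

lemma VT_const_high {m : ℕ} {T : Finset Domino} (hT : IsTiling m T) (u : ℕ) (n : ℕ) :
    VT m T u ((m:ℤ) - u + n) = VT m T u ((m:ℤ) - u) := by
  induction n with
  | zero => simp
  | succ n ih =>
    have e : (m:ℤ) - u + ((n+1:ℕ):ℤ) = (m:ℤ) - u + n + 1 := by push_cast; ring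
    rw [e, VT_step hT, ee_out hT u _ (by omega), ih, add_zero]

lemma VT_all_zero {m : ℕ} {T : Finset Domino} (hT : IsTiling m T) (u : ℕ) (hu : m ≤ u) (y : ℤ) :
    VT m T u y = 0 := by
  unfold VT
  apply Finset.sum_eq_zero
  intro b _
  exact ee_out hT u b (by omega)

lemma VT_top {m : ℕ} {T : Finset Domino} (hT : IsTiling m T) (k : ℕ) :
    ∀ u : ℕ, u + k = m → VT m T u ((m:ℤ) - u) = 0 := by
  induction k with
  | zero =>
    intro u hu
    exact VT_all_zero hT u (by omega) _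
  | succ k ih =>
    intro u hu
    have h1 := VT_rel hT u (by omega) (2 * (m - u)) le_rfl
    have e : (u:ℤ) - m + ((2 * (m - u) : ℕ):ℤ) = m - u := by
      have : ((2 * (m - u) : ℕ):ℤ) = 2 * ((m:ℤ) - u) := by
        rw [Nat.cast_mul, Nat.cast_sub (by omega)]; norm_num
      rw [this]; ring
    rw [e, if_pos (by omega), ind_zero.2 (ver_out hT u _ (by omega))] at h1
    have h2 := ih (u+1) (by omega)
    have h3 := VT_const_high hT (u+1) 1
    have e3 : (m:ℤ) - ((u+1:ℕ):ℤ) + ((1:ℕ):ℤ) = m - u := by push_cast; ring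
    rw [e3, h2] at h3
    omega

lemma VT_high {m : ℕ} {T : Finset Domino} (hT : IsTiling m T) (u : ℕ) (y : ℤ)
    (hy : (m:ℤ) - u ≤ y) : VT m T u y = 0 := by
  by_cases hu : m ≤ u
  · exact VT_all_zero hT u hu y
  · have h1 := VT_top hT (m - u) u (by omega)
    have h2 := VT_const_high hT u (y - (m - u)).toNat
    have e : (m:ℤ) - u + ((y - ((m:ℤ) - u)).toNat : ℤ) = y := by omega
    rw [e] at h2
    rw [h2, h1]

/-- the relation in the form used below -/
lemma VT_rel' {m : ℕ} {T : Finset Domino} (hT : IsTiling m T) (u : ℕ) (y : ℤ)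
    (h1 : (u:ℤ) - m ≤ y) (h2 : y ≤ (m:ℤ) - u) :
    VT m T u y - VT m T (u+1) y =
      if ((u:ℤ) + y + m) % 2 = 0 then ind (ver (-(u:ℤ) - 1) (y - 1) ∈ T)
      else 1 - ind (ver (-(u:ℤ) - 1) (y - 1) ∈ T) := by
  have h := VT_rel hT u (by omega) (y - ((u:ℤ) - m)).toNat (by omega)
  have e : (u:ℤ) - m + ((y - ((u:ℤ) - m)).toNat : ℤ) = y := by omega
  rw [e] at h
  rw [h]
  have : ((y - ((u:ℤ) - m)).toNat % 2 = 0) ↔ (((u:ℤ) + y + m) % 2 = 0) := by omega
  simp only [this]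

lemma VT_half {m : ℕ} {T : Finset Domino} (hT : IsTiling m T) : IsHalf m (VT m T) := by
  constructor
  · intro u y hh
    rcases hh with hh | hh
    · exact VT_high hT u y (by omega)
    · exact VT_low hT u y (by omega)
  · intro u y hp
    rw [VT_step hT]
    unfold ee
    rw [if_pos hp]
    split_ifs <;> omega
  · intro u y hp
    rw [VT_step hT]
    unfold ee
    rw [if_neg (by omega : ¬ ((u:ℤ) + y + m) % 2 = 0)]
    split_ifs <;> omega
  · intro u y
    by_cases hin : (u:ℤ) - m ≤ y ∧ y ≤ (m:ℤ) - u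
    · have h := VT_rel' hT u y hin.1 hin.2
      have c := ind_cases (ver (-(u:ℤ) - 1) (y - 1) ∈ T)
      split_ifs at h <;> omega
    · have h1 : VT m T u y = 0 := by
        by_cases hy : y < (u:ℤ) - m
        · exact VT_low hT u y hy.le
        · exact VT_high hT u y (by omega)
      have h2 : VT m T (u+1) y = 0 := by
        by_cases hy : y < (u:ℤ) - m
        · exact VT_low hT (u+1) y (by push_cast; omega)
        · exact VT_high hT (u+1) y (by push_cast; omega)
      omega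

lemma hor_mem_iff {m : ℕ} {T : Finset Domino} (hT : IsTiling m T) (u : ℕ) (b : ℤ) :
    hor (-(u:ℤ) - 1) b ∈ T ↔ VT m T u (b+1) ≠ VT m T u b := by
  rw [VT_step hT]
  unfold ee
  split_ifs with h h' <;> simp [h]

lemma ver_mem_iff {m : ℕ} {T : Finset Domino} (hT : IsTiling m T) (u : ℕ) (b : ℤ) :
    ver (-(u:ℤ) - 1) b ∈ T ↔ ((u:ℤ) - m < b + 1 ∧ b + 1 < (m:ℤ) - u ∧
      (if ((u:ℤ) + (b + 1) + m) % 2 = 0 then VT m T (u+1) (b+1) ≠ VT m T u (b+1)
        else VT m T (u+1) (b+1) = VT m T u (b+1))) := by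
  by_cases hin : (u:ℤ) - m < b + 1 ∧ b + 1 < (m:ℤ) - u
  · have h := VT_rel' hT u (b+1) (by omega) (by omega)
    rw [add_sub_cancel_right] at h
    rw [← ind_one (P := ver (-(u:ℤ) - 1) b ∈ T)]
    have c := ind_cases (ver (-(u:ℤ) - 1) b ∈ T)
    split_ifs at h ⊢ <;> omega
  · have : ver (-(u:ℤ) - 1) b ∉ T := by
      have := ver_out hT u (b+1) (by omega)
      rwa [add_sub_cancel_right] at this
    constructor
    · intro hh; exact absurd hh this
    · rintro ⟨h1, h2, _⟩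
      exact absurd ⟨h1, h2⟩ hin

lemma VT_inj {m : ℕ} {T T' : Finset Domino} (hT : IsTiling m T) (hT' : IsTiling m T')
    (hs : IsSymm T) (hs' : IsSymm T') (h : VT m T = VT m T') : T = T' := by
  rw [isSymm_iff] at hs hs'
  have key : ∀ (u : ℕ) (b : ℤ), (hor (-(u:ℤ) - 1) b ∈ T ↔ hor (-(u:ℤ) - 1) b ∈ T') ∧
      (ver (-(u:ℤ) - 1) b ∈ T ↔ ver (-(u:ℤ) - 1) b ∈ T') := by
    intro u b
    rw [hor_mem_iff hT, hor_mem_iff hT', ver_mem_iff hT, ver_mem_iff hT', h]
    exact ⟨Iff.rfl, Iff.rfl⟩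
  have hr : ∀ (S : Finset Domino), (∀ d ∈ S, refl d ∈ S) → ∀ d, (refl d ∈ S ↔ d ∈ S) := by
    intro S hS d
    constructor
    · intro hh
      have := hS _ hh
      rwa [refl_refl] at this
    · exact hS d
  ext d
  cases d with
  | hor a b =>
    by_cases ha : a ≤ -1
    · have := (key (-a-1).toNat b).1
      have e : -(((-a-1).toNat : ℕ) : ℤ) - 1 = a := by omega
      rwa [e] at this
    · rw [← hr T hs, ← hr T' hs']
      have := (key (a+1).toNat b).1
      have e : -(((a+1).toNat : ℕ) : ℤ) - 1 = -a-2 := by omega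
      rw [e] at this
      exact this
  | ver a b =>
    by_cases ha : a ≤ -1
    · have := (key (-a-1).toNat b).2
      have e : -(((-a-1).toNat : ℕ) : ℤ) - 1 = a := by omega
      rwa [e] at this
    · rw [← hr T hs, ← hr T' hs']
      have := (key a.toNat b).2
      have e : -((a.toNat : ℕ) : ℤ) - 1 = -a-1 := by omega
      rw [e] at this
      exact this

/-! ### from half height functions to tilings -/

/-- column index of a square -/
def col (a : ℤ) : ℕ := if a ≤ -1 then (-a-1).toNat else a.toNat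

/-- which dominoes to put -/
def PV (m : ℕ) (V : ℕ → ℤ → ℤ) : Domino → Prop
  | hor a b => V (a+1).natAbs (b+1) ≠ V (a+1).natAbs b
  | ver a b => ((col a:ℤ) - m < b + 1 ∧ b + 1 < (m:ℤ) - col a ∧
      (if ((col a:ℤ) + (b + 1) + m) % 2 = 0 then V (col a+1) (b+1) ≠ V (col a) (b+1)
        else V (col a+1) (b+1) = V (col a) (b+1)))

/-- all dominoes in a large box -/
noncomputable def allDom (m : ℕ) : Finset Domino :=
  ((Finset.Icc (-(m:ℤ) - 1) (m + 1)) ×ˢ (Finset.Icc (-(m:ℤ) - 1) (m + 1))).image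
    (fun p => hor p.1 p.2) ∪
  ((Finset.Icc (-(m:ℤ) - 1) (m + 1)) ×ˢ (Finset.Icc (-(m:ℤ) - 1) (m + 1))).image
    (fun p => ver p.1 p.2)

open Classical in
/-- the tiling of a half height function -/
noncomputable def TV (m : ℕ) (V : ℕ → ℤ → ℤ) : Finset Domino :=
  (allDom m).filter (PV m V)

lemma hor_mem_all (m : ℕ) (a b : ℤ) : hor a b ∈ allDom m ↔
    (-(m:ℤ) - 1 ≤ a ∧ a ≤ m + 1 ∧ -(m:ℤ) - 1 ≤ b ∧ b ≤ m + 1) := by
  unfold allDom
  simp only [Finset.mem_union, Finset.mem_image, Finset.mem_product, Finset.mem_Icc, Prod.exists,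
    Domino.hor.injEq, reduceCtorEq, and_false, exists_false, or_false]
  constructor
  · rintro ⟨x, y, h, rfl, rfl⟩
    tauto
  · intro h
    exact ⟨a, b, by tauto, rfl, rfl⟩

lemma ver_mem_all (m : ℕ) (a b : ℤ) : ver a b ∈ allDom m ↔
    (-(m:ℤ) - 1 ≤ a ∧ a ≤ m + 1 ∧ -(m:ℤ) - 1 ≤ b ∧ b ≤ m + 1) := by
  unfold allDom
  simp only [Finset.mem_union, Finset.mem_image, Finset.mem_product, Finset.mem_Icc, Prod.exists,
    Domino.ver.injEq, reduceCtorEq, and_false, exists_false, false_or]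
  constructor
  · rintro ⟨x, y, h, rfl, rfl⟩
    tauto
  · intro h
    exact ⟨a, b, by tauto, rfl, rfl⟩

lemma step_range {m : ℕ} {V : ℕ → ℤ → ℤ} (hV : IsHalf m V) (u : ℕ) (b : ℤ)
    (h : V u (b+1) ≠ V u b) : (u:ℤ) - m ≤ b ∧ b ≤ (m:ℤ) - u - 1 := by
  by_contra hcon
  apply h
  by_cases hb : (u:ℤ) - m ≤ b
  · rw [hV.supp u b (by omega), hV.supp u (b+1) (by omega)]
  · rw [hV.supp u b (by omega), hV.supp u (b+1) (by omega)]

open Classical in
lemma hor_mem_TV {m : ℕ} {V : ℕ → ℤ → ℤ} (hV : IsHalf m V) (a b : ℤ) :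
    hor a b ∈ TV m V ↔ V (a+1).natAbs (b+1) ≠ V (a+1).natAbs b := by
  unfold TV
  rw [Finset.mem_filter, hor_mem_all]
  constructor
  · intro h; exact h.2
  · intro h
    have := step_range hV _ _ h
    exact ⟨by omega, h⟩

open Classical in
lemma ver_mem_TV (m : ℕ) (V : ℕ → ℤ → ℤ) (a b : ℤ) :
    ver a b ∈ TV m V ↔ ((col a:ℤ) - m < b + 1 ∧ b + 1 < (m:ℤ) - col a ∧
      (if ((col a:ℤ) + (b + 1) + m) % 2 = 0 then V (col a+1) (b+1) ≠ V (col a) (b+1)
        else V (col a+1) (b+1) = V (col a) (b+1))) := by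
  unfold TV
  rw [Finset.mem_filter, ver_mem_all]
  constructor
  · intro h; exact h.2
  · intro h
    refine ⟨?_, h⟩
    have hc : (col a : ℤ) = if a ≤ -1 then -a-1 else a := by
      unfold col; split_ifs <;> omega
    split_ifs at hc <;> omega

lemma inAztec_col (m : ℕ) (a b : ℤ) :
    InAztec m (a, b) ↔ (col a:ℤ) - m ≤ b ∧ b ≤ (m:ℤ) - col a - 1 := by
  have hc : (col a : ℤ) = if a ≤ -1 then -a-1 else a := by
    unfold col; split_ifs <;> omega
  rw [inAztec_iff]
  rcases abs_cases (2*a+1) with h1 | h1 <;>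
    rcases abs_cases (2*b+1) with h2 | h2 <;> split_ifs at hc <;> omega

/-- the local identity -/
lemma local_face {m : ℕ} {V : ℕ → ℤ → ℤ} (hV : IsHalf m V) (u : ℕ) (b : ℤ)
    (h1 : (u:ℤ) - m ≤ b) (h2 : b ≤ (m:ℤ) - u - 1) :
    ind (V u (b+1) ≠ V u b) + ind (V (u+1) (b+1) ≠ V (u+1) b) +
      ind ((u:ℤ) - m < b + 1 ∧ b + 1 < (m:ℤ) - u ∧
      (if ((u:ℤ) + (b + 1) + m) % 2 = 0 then V (u+1) (b+1) ≠ V u (b+1)
        else V (u+1) (b+1) = V u (b+1))) +
      ind ((u:ℤ) - m < b ∧ b < (m:ℤ) - u ∧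
      (if ((u:ℤ) + b + m) % 2 = 0 then V (u+1) b ≠ V u b
        else V (u+1) b = V u b)) = 1 := by
  have k1 := hV.hz u b
  have k2 := hV.hz u (b+1)
  have low : b = (u:ℤ) - m → V u b = 0 ∧ V (u+1) b = 0 := by
    intro hb
    exact ⟨hV.supp _ _ (by omega), hV.supp _ _ (by push_cast; omega)⟩
  have high : b + 1 = (m:ℤ) - u → V u (b+1) = 0 ∧ V (u+1) (b+1) = 0 := by
    intro hb
    exact ⟨hV.supp _ _ (by omega), hV.supp _ _ (by push_cast; omega)⟩
  unfold ind
  rcases Int.emod_two_eq_zero_or_one ((u:ℤ) + b + m) with hp | hp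
  · have k3 := hV.ve u b hp
    have k4 := hV.vo (u+1) b (by push_cast; omega)
    have hp' : ((u:ℤ) + (b + 1) + m) % 2 = 1 := by omega
    rw [hp, hp']
    simp only [if_true, one_ne_zero, if_false]
    split_ifs <;> omega
  · have k3 := hV.vo u b hp
    have k4 := hV.ve (u+1) b (by push_cast; omega)
    have hp' : ((u:ℤ) + (b + 1) + m) % 2 = 0 := by omega
    rw [hp, hp']
    simp only [if_true, one_ne_zero, if_false]
    split_ifs <;> omega

end Pool.Agent.Lib.MP_315d97_co
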