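import Mathlib
import Pool.Agent.Lib.MP_315d97_co.Tile2

/-!
The tilings counted in the problem versus half height functions.
-/

set_option autoImplicit false

namespace Pool.Agent.Lib.MP_315d97_co

open Finset Domino

lemma ind_congr {P Q : Prop} [Decidable P] [Decidable Q] (h : P ↔ Q) : ind P = ind Q := by
  unfold ind
  by_cases hP : P
  · rw [if_pos hP, if_pos (h.1 hP)]
  · rw [if_neg hP, if_neg (fun hq => hP (h.2 hq))]

lemma TV_inside {m : ℕ} {V : ℕ → ℤ → ℤ} (hV : IsHalf m V) :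
    ∀ d ∈ TV m V, ∀ s ∈ d.squares, InAztec m s := by
  intro d hd s hs
  cases d with
  | hor a b =>
    rw [hor_mem_TV hV] at hd
    have h := step_range hV _ _ hd
    rw [mem_hor] at hs
    rcases hs with rfl | rfl
    · rw [inAztec_col]
      have hc : (col a : ℤ) = if a ≤ -1 then -a-1 else a := by
        unfold col; split_ifs <;> omega
      split_ifs at hc <;> omega
    · rw [inAztec_col]
      have hc : (col (a+1) : ℤ) = if a+1 ≤ -1 then -(a+1)-1 else a+1 := by
        unfold col; split_ifs <;> omega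
      split_ifs at hc <;> omega
  | ver a b =>
    rw [ver_mem_TV] at hd
    rw [mem_ver] at hs
    rcases hs with rfl | rfl
    · rw [inAztec_col]; omega
    · rw [inAztec_col]; omega

lemma TV_tiling {m : ℕ} {V : ℕ → ℤ → ℤ} (hV : IsHalf m V) : IsTiling m (TV m V) := by
  apply tiling_of_face (TV_inside hV)
  intro a b hab
  rw [inAztec_col] at hab
  have hloc := local_face hV (col a) b hab.1 hab.2
  have e1 := ind_congr (hor_mem_TV hV a b)
  have e2 := ind_congr (hor_mem_TV hV (a-1) b)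
  have e3 := ind_congr (ver_mem_TV m V a b)
  have e4 := ind_congr (ver_mem_TV m V a (b-1))
  rw [sub_add_cancel] at e2 e4
  rw [e1, e2, e3, e4]
  by_cases ha : a ≤ -1
  · have c1 : (a+1).natAbs = col a := by unfold col; rw [if_pos ha]; omega
    have c2 : a.natAbs = col a + 1 := by unfold col; rw [if_pos ha]; omega
    rw [c1, c2]
    exact hloc
  · have c1 : (a+1).natAbs = col a + 1 := by unfold col; rw [if_neg ha]; omega
    have c2 : a.natAbs = col a := by unfold col; rw [if_neg ha]; omega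
    rw [c1, c2]
    omega

lemma col_refl (a : ℤ) : col (-a-1) = col a := by
  unfold col
  split_ifs <;> omega

lemma TV_symm {m : ℕ} {V : ℕ → ℤ → ℤ} (hV : IsHalf m V) : IsSymm (TV m V) := by
  rw [isSymm_iff]
  intro d hd
  cases d with
  | hor a b =>
    unfold refl
    rw [hor_mem_TV hV] at hd ⊢
    have : (-a - 2 + 1).natAbs = (a+1).natAbs := by omega
    rw [this]
    exact hd
  | ver a b =>
    unfold refl
    rw [ver_mem_TV] at hd ⊢
    rw [col_refl]
    exact hd

lemma TV_inj {m : ℕ} {V W : ℕ → ℤ → ℤ} (hV : IsHalf m V) (hW : IsHalf m W)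
    (h : TV m V = TV m W) : V = W := by
  have key : ∀ (u : ℕ) (b : ℤ), (V u (b+1) ≠ V u b ↔ W u (b+1) ≠ W u b) := by
    intro u b
    have h1 := hor_mem_TV hV (-(u:ℤ) - 1) b
    have h2 := hor_mem_TV hW (-(u:ℤ) - 1) b
    have e : (-(u:ℤ) - 1 + 1).natAbs = u := by omega
    rw [e] at h1 h2
    rw [← h1, ← h2, h]
  funext u y
  by_cases hy : y ≤ (u:ℤ) - m
  · rw [hV.supp u y (by omega), hW.supp u y (by omega)]
  have hind : ∀ n : ℕ, V u ((u:ℤ) - m + n) = W u ((u:ℤ) - m + n) := by
    intro n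
    induction n with
    | zero => rw [hV.supp u _ (by push_cast; omega), hW.supp u _ (by push_cast; omega)]
    | succ n ih =>
      have e : (u:ℤ) - m + ((n+1:ℕ):ℤ) = (u:ℤ) - m + n + 1 := by push_cast; ring
      rw [e]
      have k := key u ((u:ℤ) - m + n)
      rcases Int.emod_two_eq_zero_or_one ((u:ℤ) + ((u:ℤ) - m + n) + m) with hp | hp
      · have h1 := hV.ve u _ hp
        have h2 := hW.ve u _ hp
        omega
      · have h1 := hV.vo u _ hp
        have h2 := hW.vo u _ hp
        omega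
  have := hind (y - ((u:ℤ) - m)).toNat
  have e : (u:ℤ) - m + ((y - ((u:ℤ) - m)).toNat : ℤ) = y := by omega
  rwa [e] at this

/-! ### cells -/

lemma diagCell_iff (m : ℕ) (b : ℤ) :
    IsDiagCell m b ↔ ((b + m) % 2 = 0 ∧ -(m:ℤ) ≤ b ∧ b ≤ (m:ℤ) - 2) := by
  unfold IsDiagCell Black block
  rw [Int.even_iff]
  constructor
  · rintro ⟨h1, h2⟩
    have a1 := h2 (-1, b) (by simp)
    have a2 := h2 (-1, b+1) (by simp)
    rw [inAztec_iff] at a1 a2
    simp only at h1
    refine ⟨by omega, ?_, ?_⟩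
    · rcases abs_cases (2*(-1:ℤ)+1) with h3 | h3 <;> rcases abs_cases (2*b+1) with h4 | h4 <;> omega
    · rcases abs_cases (2*(-1:ℤ)+1) with h3 | h3 <;>
        rcases abs_cases (2*(b+1)+1) with h4 | h4 <;> omega
  · rintro ⟨h1, h2, h3⟩
    refine ⟨by simp only; omega, ?_⟩
    intro s hs
    simp only [Finset.mem_insert, Finset.mem_singleton] at hs
    rcases hs with rfl | rfl | rfl | rfl <;> rw [inAztec_col] <;> unfold col <;> norm_num <;> omega

lemma squares_sub_block (d : Domino) (b : ℤ) :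
    d.squares ⊆ block (-1, b) ↔
      (d = hor (-1) b ∨ d = hor (-1) (b+1) ∨ d = ver (-1) b ∨ d = ver 0 b) := by
  unfold block
  cases d with
  | hor x y =>
    simp only [Domino.squares, Finset.insert_subset_iff, Finset.singleton_subset_iff,
      Finset.mem_insert, Finset.mem_singleton, Prod.mk.injEq, Domino.hor.injEq, reduceCtorEq,
      or_false]
    omega
  | ver x y =>
    simp only [Domino.squares, Finset.insert_subset_iff, Finset.singleton_subset_iff,
      Finset.mem_insert, Finset.mem_singleton, Prod.mk.injEq, Domino.ver.injEq, reduceCtorEq,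
      false_or]
    omega

lemma cellValue_eq (T : Finset Domino) (b : ℤ) :
    cellValue T b = ind (hor (-1) b ∈ T) + ind (hor (-1) (b+1) ∈ T) + ind (ver (-1) b ∈ T) +
      ind (ver 0 b ∈ T) - 1 := by
  unfold cellValue
  have h1 : T.filter (fun d => d.squares ⊆ block (-1, b)) =
      ({hor (-1) b, hor (-1) (b+1), ver (-1) b, ver 0 b} : Finset Domino).filter (fun d => d ∈ T) := by
    ext d
    simp only [Finset.mem_filter, squares_sub_block, Finset.mem_insert, Finset.mem_singleton]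
    tauto
  rw [h1, Finset.card_filter]
  have n1 : hor (-1) b ≠ hor (-1) (b+1) := by
    intro h; rw [Domino.hor.injEq] at h; omega
  have n2 : ver (-1) b ≠ ver 0 b := by
    intro h; rw [Domino.ver.injEq] at h; omega
  rw [Finset.sum_insert (by simp [n1]), Finset.sum_insert (by simp), Finset.sum_insert (by simp [n2]),
    Finset.sum_singleton]
  unfold ind
  push_cast
  ring

lemma cell_zero_iff {m : ℕ} {T : Finset Domino} (hT : IsTiling m T) (hs : IsSymm T) {b : ℤ}
    (hb : IsDiagCell m b) :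
    (cellValue T b = 0 ↔ ind (hor (-1) b ∈ T) + ind (hor (-1) (b+1) ∈ T) = 1) ∧
    (cellValue T b = 1 ∨ cellValue T b = 0 ∨ cellValue T b = -1) := by
  rw [cellValue_eq]
  rw [diagCell_iff] at hb
  have f1 := face hT (a := -1) (b := b) (by rw [inAztec_col]; unfold col; norm_num; omega)
  have f2 := face hT (a := -1) (b := b+1) (by rw [inAztec_col]; unfold col; norm_num; omega)
  have hv : (ver (-1) b ∈ T) ↔ (ver 0 b ∈ T) := by
    rw [isSymm_iff] at hs
    constructor
    · intro h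
      have := hs _ h
      simpa [refl] using this
    · intro h
      have := hs _ h
      simpa [refl] using this
  have hv' := ind_congr hv
  rw [add_sub_cancel_right] at f2
  have c1 := ind_cases (hor (-1) b ∈ T)
  have c2 := ind_cases (hor (-1) (b+1) ∈ T)
  have c3 := ind_cases (ver (-1) b ∈ T)
  have c4 := ind_cases (hor (-1-1) b ∈ T)
  have c5 := ind_cases (hor (-1-1) (b+1) ∈ T)
  have c6 := ind_cases (ver (-1) (b-1) ∈ T)
  have c7 := ind_cases (ver (-1) (b+1) ∈ T)
  omega

lemma TV_cell {m : ℕ} {V : ℕ → ℤ → ℤ} (hV : IsHalf m V) {b : ℤ} (hb : IsDiagCell m b) :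
    cellValue (TV m V) b = 0 ↔ V 0 (b+2) ≠ V 0 b := by
  rw [(cell_zero_iff (TV_tiling hV) (TV_symm hV) hb).1]
  rw [diagCell_iff] at hb
  have e1 := ind_congr (hor_mem_TV hV (-1) b)
  have e2 := ind_congr (hor_mem_TV hV (-1) (b+1))
  rw [e1, e2]
  have e3 : ((-1:ℤ) + 1).natAbs = 0 := by norm_num
  rw [e3]
  have e4 : b + 1 + 1 = b + 2 := by ring
  rw [e4]
  have h1 := hV.ve 0 b (by push_cast; omega)
  have h2 := hV.vo 0 (b+1) (by push_cast; omega)
  rw [e4] at h2
  unfold ind
  split_ifs <;> omega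

lemma offDiag_finite_and_le (m : ℕ) : (offDiag m).Finite ∧ (offDiag m).ncard ≤ (HF m).card := by
  have hinj : Set.InjOn (VT m) (offDiag m) := by
    intro T hT T' hT' h
    simp only [offDiag, Set.mem_ofPred_eq] at hT hT'
    exact VT_inj hT.1 hT'.1 hT.2.1 hT'.2.1 h
  have hmaps : Set.MapsTo (VT m) (offDiag m) (HF m : Set (ℕ → ℤ → ℤ)) := by
    intro T hT
    simp only [offDiag, Set.mem_ofPred_eq] at hT
    simp only [Finset.mem_coe, mem_HF]
    exact VT_half hT.1
  refine ⟨Set.Finite.of_injOn hmaps hinj (Finset.finite_toSet _), ?_⟩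
  have := Set.ncard_le_ncard_of_injOn (VT m) hmaps hinj (Finset.finite_toSet _)
  rwa [Set.ncard_coe_finset] at this

lemma nearOffDiag_finite_and_le (m : ℕ) :
    (nearOffDiag m).Finite ∧ (nearOffDiag m).ncard ≤ (HF m).card := by
  have hinj : Set.InjOn (VT m) (nearOffDiag m) := by
    intro T hT T' hT' h
    simp only [nearOffDiag, Set.mem_ofPred_eq] at hT hT'
    exact VT_inj hT.1 hT'.1 hT.2.1 hT'.2.1 h
  have hmaps : Set.MapsTo (VT m) (nearOffDiag m) (HF m : Set (ℕ → ℤ → ℤ)) := by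
    intro T hT
    simp only [nearOffDiag, Set.mem_ofPred_eq] at hT
    simp only [Finset.mem_coe, mem_HF]
    exact VT_half hT.1
  refine ⟨Set.Finite.of_injOn hmaps hinj (Finset.finite_toSet _), ?_⟩
  have := Set.ncard_le_ncard_of_injOn (VT m) hmaps hinj (Finset.finite_toSet _)
  rwa [Set.ncard_coe_finset] at this

lemma OV_le_offDiag (m : ℕ) : (OV m).card ≤ (offDiag m).ncard := by
  have hinj : Set.InjOn (TV m) (OV m : Set (ℕ → ℤ → ℤ)) := by
    intro V hV W hW h
    simp only [OV, Finset.coe_filter, Set.mem_ofPred_eq, mem_HF] at hV hW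
    exact TV_inj hV.1 hW.1 h
  have hmaps : Set.MapsTo (TV m) (OV m : Set (ℕ → ℤ → ℤ)) (offDiag m) := by
    intro V hV
    simp only [OV, Finset.coe_filter, Set.mem_ofPred_eq, mem_HF] at hV
    simp only [offDiag, Set.mem_ofPred_eq]
    refine ⟨TV_tiling hV.1, TV_symm hV.1, ?_⟩
    intro b hb
    rw [TV_cell hV.1 hb]
    rw [diagCell_iff] at hb
    exact hV.2 b hb.1 hb.2.1 hb.2.2
  have := Set.ncard_le_ncard_of_injOn (TV m) hmaps hinj (offDiag_finite_and_le m).1
  rwa [Set.ncard_coe_finset] at this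

lemma DV_le_nearOffDiag (m : ℕ) : (DV m).card ≤ (nearOffDiag m).ncard := by
  have hinj : Set.InjOn (TV m) (DV m : Set (ℕ → ℤ → ℤ)) := by
    intro V hV W hW h
    simp only [DV, Finset.coe_filter, Set.mem_ofPred_eq, mem_HF] at hV hW
    exact TV_inj hV.1 hW.1 h
  have hmaps : Set.MapsTo (TV m) (DV m : Set (ℕ → ℤ → ℤ)) (nearOffDiag m) := by
    intro V hV
    simp only [DV, Finset.coe_filter, Set.mem_ofPred_eq, mem_HF] at hV
    simp only [nearOffDiag, Set.mem_ofPred_eq]
    refine ⟨TV_tiling hV.1, TV_symm hV.1, ?_⟩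
    obtain ⟨b, h1, h2, h3, h4, h5⟩ := hV.2
    have hb : IsDiagCell m b := (diagCell_iff m b).2 ⟨h1, h2, h3⟩
    refine ⟨b, hb, ?_, ?_⟩
    · have hne : ¬ cellValue (TV m V) b = 0 := by
        rw [TV_cell hV.1 hb]
        simp [h4]
      have := (cell_zero_iff (TV_tiling hV.1) (TV_symm hV.1) hb).2
      tauto
    · intro c hc hcb
      rw [TV_cell hV.1 hc]
      rw [diagCell_iff] at hc
      exact h5 c hc.1 hc.2.1 hc.2.2 hcb
  have := Set.ncard_le_ncard_of_injOn (TV m) hmaps hinj (nearOffDiag_finite_and_le m).1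
  rwa [Set.ncard_coe_finset] at this

/-! ### the two-sided bounds -/

theorem offDiag_upper (m : ℕ) : (offDiag m).ncard ^ 2 ≤ 2 ^ (2 * m) * 2 ^ (m * (m+1) / 2) := by
  have h := HF_card_sq_le m
  rw [FF_eq] at h
  exact (Nat.pow_le_pow_left (offDiag_finite_and_le m).2 2).trans h

theorem nearOffDiag_upper (m : ℕ) :
    (nearOffDiag m).ncard ^ 2 ≤ 2 ^ (2 * m) * 2 ^ (m * (m+1) / 2) := by
  have h := HF_card_sq_le m
  rw [FF_eq] at h
  exact (Nat.pow_le_pow_left (nearOffDiag_finite_and_le m).2 2).trans h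

theorem offDiag_lower {m S : ℕ} (hm : m % 2 = 0) (hS : 2 * m < 2 ^ S) :
    2 ^ (m * (m+1) / 2) ≤
      2 ^ (2 * m) * ((offDiag m).ncard * (2 * m + 2) ^ (2 * (S * (2 * m + 1)))) ^ 2 := by
  have h := OV_lower hm hS
  rw [FF_eq] at h
  refine h.trans (Nat.mul_le_mul_left _ (Nat.pow_le_pow_left (Nat.mul_le_mul_right _ ?_) 2))
  exact OV_le_offDiag m

theorem nearOffDiag_lower {m S : ℕ} (hm : m % 2 = 0) (hS : 2 * m < 2 ^ S) :
    2 ^ (m * (m+1) / 2) ≤
      2 ^ (2 * m) * ((nearOffDiag (m+1)).ncard * (2 * m + 2) ^ (2 * (S * (2 * m + 1)))) ^ 2 := by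
  have h := OV_lower hm hS
  rw [FF_eq] at h
  refine h.trans (Nat.mul_le_mul_left _ (Nat.pow_le_pow_left (Nat.mul_le_mul_right _ ?_) 2))
  exact (DV_lower m).trans (DV_le_nearOffDiag (m+1))

end Pool.Agent.Lib.MP_315d97_co
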